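import Mathlib

/-!
# RDU bounds: definitions
-/

set_option autoImplicit false

namespace Pool.Agent.Helper28.RDU

open Matrix

universe u

variable {R : Type u} [Ring R] {n : ℕ}

/-- The elementary transvection `t_{kl}(a)` as an invertible matrix. -/
def transv (k l : Fin n) (h : k ≠ l) (a : R) : (Matrix (Fin n) (Fin n) R)ˣ where
  val := 1 + Matrix.single k l a
  inv := 1 - Matrix.single k l a
  val_inv := by
    rw [add_mul, mul_sub, mul_sub, single_mul_single_of_ne _ _ _ _ h.symm]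
    simp
  inv_val := by
    rw [sub_mul, mul_add, mul_add, single_mul_single_of_ne _ _ _ _ h.symm]
    simp

/-- The elementary group `E_n(R)`. -/
def elemGroup (n : ℕ) (R : Type u) [Ring R] : Subgroup (Matrix (Fin n) (Fin n) R)ˣ :=
  Subgroup.closure {g | ∃ (k l : Fin n) (h : k ≠ l) (a : R), g = transv k l h a}

/-- `m` is an RDU bound for `GL_n(R)`. -/
def IsRDUBoundGL (n m : ℕ) (R : Type u) [Ring R] : Prop :=
  ∀ (σ : (Matrix (Fin n) (Fin n) R)ˣ) (k l : Fin n) (hkl : k ≠ l) (i j : Fin n), i ≠ j →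
    ∃ L : List (Matrix (Fin n) (Fin n) R)ˣ, L.length ≤ m ∧
      (∀ g ∈ L, ∃ τ ∈ elemGroup n R, g = τ⁻¹ * σ * τ ∨ g = τ⁻¹ * σ⁻¹ * τ) ∧
      L.prod = transv k l hkl ((σ : Matrix (Fin n) (Fin n) R) i j)

/-- `R` has stable rank `1`: whenever `R a + R b = R` (that is, `x a + y b = 1` for some `x, y`)
there is `c` such that `a + c b` is a unit. -/
def StableRankOne (R : Type u) [Ring R] : Prop :=
  ∀ a b : R, (∃ x y : R, x * a + y * b = 1) → ∃ c : R, IsUnit (a + c * b)

end Pool.Agent.Helper28.RDU
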