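import Pool.Agent.Helper28.RDU.Defs

/-!
# RDU bounds: proofs
-/

set_option autoImplicit false
set_option linter.unusedSimpArgs false

namespace Pool.Agent.Helper28.RDU

open Matrix

universe u v

section upper

variable {R : Type u} [Ring R] {n : ℕ}

lemma transv_mem (k l : Fin n) (h : k ≠ l) (a : R) : transv k l h a ∈ elemGroup n R :=
  Subgroup.subset_closure ⟨k, l, h, a, rfl⟩

lemma transv_val (k l : Fin n) (h : k ≠ l) (a : R) :
    ((transv k l h a : (Matrix (Fin n) (Fin n) R)ˣ) : Matrix (Fin n) (Fin n) R)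
      = 1 + Matrix.single k l a := rfl

lemma transv_inv (k l : Fin n) (h : k ≠ l) (a : R) : (transv k l h a)⁻¹ = transv k l h (-a) := by
  apply Units.ext
  show 1 - Matrix.single k l a = 1 + Matrix.single k l (-a)
  ext x y
  simp [Matrix.single_apply]
  split_ifs <;> simp [sub_eq_add_neg]

lemma transv_mul (k l : Fin n) (h : k ≠ l) (a b : R) : transv k l h a * transv k l h b = transv k l h (a + b) := by
  apply Units.ext
  simp only [Units.val_mul, transv_val]
  rw [add_mul, mul_add, mul_add, single_mul_single_of_ne _ _ _ _ h.symm]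
  simp [Matrix.single_add, add_assoc, add_comm]

/-- `X` is a product of at most `m` conjugates of `σ` or `σ⁻¹` under `E_n(R)`. -/
def Reach (σ : (Matrix (Fin n) (Fin n) R)ˣ) (m : ℕ) (X : (Matrix (Fin n) (Fin n) R)ˣ) : Prop :=
  ∃ L : List (Matrix (Fin n) (Fin n) R)ˣ, L.length ≤ m ∧
      (∀ g ∈ L, ∃ τ ∈ elemGroup n R, g = τ⁻¹ * σ * τ ∨ g = τ⁻¹ * σ⁻¹ * τ) ∧ L.prod = X

lemma Reach.mono {σ X : (Matrix (Fin n) (Fin n) R)ˣ} {m m' : ℕ} (h : Reach σ m X) (hm : m ≤ m') :
    Reach σ m' X := by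
  obtain ⟨L, h1, h2, h3⟩ := h
  exact ⟨L, h1.trans hm, h2, h3⟩

lemma Reach.mul {σ X Y : (Matrix (Fin n) (Fin n) R)ˣ} {m m' : ℕ} (h : Reach σ m X)
    (h' : Reach σ m' Y) : Reach σ (m + m') (X * Y) := by
  obtain ⟨L, h1, h2, h3⟩ := h
  obtain ⟨L', h1', h2', h3'⟩ := h'
  refine ⟨L ++ L', by simp; omega, ?_, by simp [h3, h3']⟩
  intro g hg
  rcases List.mem_append.mp hg with h | h
  · exact h2 g h
  · exact h2' g h

lemma prod_map_conj {G : Type*} [Group G] (τ : G) (L : List G) :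
    (L.map (fun g => τ⁻¹ * g * τ)).prod = τ⁻¹ * L.prod * τ := by
  induction L with
  | nil => simp
  | cons a L ih =>
    rw [List.map_cons, List.prod_cons, List.prod_cons, ih]
    group

lemma Reach.conj {σ X τ : (Matrix (Fin n) (Fin n) R)ˣ} {m : ℕ} (h : Reach σ m X)
    (hτ : τ ∈ elemGroup n R) : Reach σ m (τ⁻¹ * X * τ) := by
  obtain ⟨L, h1, h2, rfl⟩ := h
  refine ⟨L.map (fun g => τ⁻¹ * g * τ), by simpa using h1, ?_, prod_map_conj τ L⟩
  intro g hg
  obtain ⟨g', hg', rfl⟩ := List.mem_map.mp hg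
  obtain ⟨ρ, hρ, h | h⟩ := h2 g' hg'
  · exact ⟨ρ * τ, mul_mem hρ hτ, Or.inl (by rw [h]; group)⟩
  · exact ⟨ρ * τ, mul_mem hρ hτ, Or.inr (by rw [h]; group)⟩

lemma Reach.inv {σ X : (Matrix (Fin n) (Fin n) R)ˣ} {m : ℕ} (h : Reach σ m X) :
    Reach σ m X⁻¹ := by
  obtain ⟨L, h1, h2, rfl⟩ := h
  refine ⟨(L.map (fun g => g⁻¹)).reverse, by simpa using h1, ?_, ?_⟩
  · intro g hg
    rw [List.mem_reverse] at hg
    obtain ⟨g', hg', rfl⟩ := List.mem_map.mp hg
    obtain ⟨ρ, hρ, h | h⟩ := h2 g' hg'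
    · exact ⟨ρ, hρ, Or.inr (by rw [h]; group)⟩
    · exact ⟨ρ, hρ, Or.inl (by rw [h]; group)⟩
  · rw [List.prod_inv_reverse]

/-- Transitivity. -/
lemma Reach.trans {σ ξ X : (Matrix (Fin n) (Fin n) R)ˣ} {m m' : ℕ} (h : Reach σ m ξ)
    (h' : Reach ξ m' X) : Reach σ (m * m') X := by
  obtain ⟨L, h1, h2, rfl⟩ := h'
  have key : ∀ (L : List (Matrix (Fin n) (Fin n) R)ˣ),
      (∀ g ∈ L, ∃ τ ∈ elemGroup n R, g = τ⁻¹ * ξ * τ ∨ g = τ⁻¹ * ξ⁻¹ * τ) →
      Reach σ (m * L.length) L.prod := by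
    intro L
    induction L with
    | nil => intro _; exact ⟨[], by simp, by simp, by simp⟩
    | cons a L ih =>
      intro hL
      have ih' := ih (fun g hg => hL g (List.mem_cons_of_mem _ hg))
      have ha : Reach σ m a := by
        obtain ⟨τ, hτ, h | h⟩ := hL a (by simp)
        · rw [h]; exact Reach.conj (by assumption) hτ
        · rw [h]; exact (Reach.inv (by assumption)).conj hτ
      have := ha.mul ih'
      rw [List.prod_cons, List.length_cons]
      exact this.mono (by ring_nf; omega)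
  exact (key L h2).mono (Nat.mul_le_mul_left _ h1)

lemma Reach.self (σ : (Matrix (Fin n) (Fin n) R)ˣ) : Reach σ 1 σ :=
  ⟨[σ], by simp, by intro g hg; exact ⟨1, one_mem _, Or.inl (by simpa using hg)⟩, by simp⟩

lemma Reach.conj_self (σ τ : (Matrix (Fin n) (Fin n) R)ˣ) (hτ : τ ∈ elemGroup n R) :
    Reach σ 1 (τ⁻¹ * σ * τ) := (Reach.self σ).conj hτ


/-! ### conjugating transvections -/

/-- the matrix `A = t_{lm}(a) t_{ml}(-x) t_{lm}(a)`. -/
def wA (l m : Fin n) (h : l ≠ m) (a x : R) : (Matrix (Fin n) (Fin n) R)ˣ :=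
  transv l m h a * transv m l h.symm (-x) * transv l m h a

lemma wA_mem (l m : Fin n) (h : l ≠ m) (a x : R) : wA l m h a x ∈ elemGroup n R :=
  mul_mem (mul_mem (transv_mem _ _ _ _) (transv_mem _ _ _ _)) (transv_mem _ _ _ _)

lemma wA_val (l m : Fin n) (h : l ≠ m) (a x : R) (hax : a * x * a = a) :
    ((wA l m h a x : (Matrix (Fin n) (Fin n) R)ˣ) : Matrix (Fin n) (Fin n) R)
      = 1 + single l m a - single m l x - single l l (a * x) - single m m (x * a) := by
  simp only [wA, Units.val_mul, transv_val]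
  simp only [add_mul, mul_add, one_mul, mul_one, single_mul_single_same,
    single_mul_single_of_ne _ _ _ _ h, single_mul_single_of_ne _ _ _ _ h.symm, add_zero, zero_mul]
  simp only [mul_neg, neg_mul, ← single_neg, hax]
  abel

/-- moving the second index. -/
lemma conj_second (k l m : Fin n) (hkl : k ≠ l) (hkm : k ≠ m) (hlm : l ≠ m) (a x c : R)
    (hax : a * x * a = a) (hc : c * (a * x) = c) :
    (wA l m hlm a x)⁻¹ * transv k l hkl c * wA l m hlm a x = transv k m hkm (c * a) := by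
  rw [mul_assoc, inv_mul_eq_iff_eq_mul]
  apply Units.ext
  simp only [Units.val_mul, transv_val]
  rw [wA_val _ _ _ _ _ hax]
  simp only [add_mul, mul_add, one_mul, mul_one, sub_mul, mul_sub, single_mul_single_same,
    single_mul_single_of_ne _ _ _ _ hlm, single_mul_single_of_ne _ _ _ _ hlm.symm,
    single_mul_single_of_ne _ _ _ _ hkl, single_mul_single_of_ne _ _ _ _ hkl.symm,
    single_mul_single_of_ne _ _ _ _ hkm, single_mul_single_of_ne _ _ _ _ hkm.symm, hc]
  abel

/-- moving the first index. -/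
lemma conj_first (k l m : Fin n) (hkl : k ≠ l) (hkm : k ≠ m) (hml : m ≠ l) (c : R) :
    (wA k m hkm 1 1)⁻¹ * transv k l hkl c * wA k m hkm 1 1 = transv m l hml c := by
  rw [mul_assoc, inv_mul_eq_iff_eq_mul]
  apply Units.ext
  simp only [Units.val_mul, transv_val]
  rw [wA_val _ _ _ _ _ (by simp)]
  simp only [add_mul, mul_add, one_mul, mul_one, sub_mul, mul_sub, single_mul_single_same,
    single_mul_single_of_ne _ _ _ _ hml, single_mul_single_of_ne _ _ _ _ hml.symm,
    single_mul_single_of_ne _ _ _ _ hkl, single_mul_single_of_ne _ _ _ _ hkl.symm,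
    single_mul_single_of_ne _ _ _ _ hkm, single_mul_single_of_ne _ _ _ _ hkm.symm]
  abel


/-! ### the four-factor formula -/

/-- `1 + U Φ` with `Φ U = 0`, as a unit. -/
def rk (U : Matrix (Fin n) Unit R) (Φ : Matrix Unit (Fin n) R) (h : Φ * U = 0) :
    (Matrix (Fin n) (Fin n) R)ˣ where
  val := 1 + U * Φ
  inv := 1 - U * Φ
  val_inv := by
    have : U * Φ * (U * Φ) = 0 := by
      rw [Matrix.mul_assoc, ← Matrix.mul_assoc Φ, h, Matrix.zero_mul, Matrix.mul_zero]
    rw [add_mul, mul_sub, mul_sub, this]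
    simp
  inv_val := by
    have : U * Φ * (U * Φ) = 0 := by
      rw [Matrix.mul_assoc, ← Matrix.mul_assoc Φ, h, Matrix.zero_mul, Matrix.mul_zero]
    rw [sub_mul, mul_add, mul_add, this]
    simp

lemma colAdd_mem (i : Fin n) (c : Fin n → R) (s : Finset (Fin n)) (hs : i ∉ s) :
    ∃ g ∈ elemGroup n R, ((g : (Matrix (Fin n) (Fin n) R)ˣ) : Matrix (Fin n) (Fin n) R)
      = 1 + ∑ m ∈ s, single m i (c m) := by
  induction s using Finset.induction_on with
  | empty => exact ⟨1, one_mem _, by simp⟩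
  | insert m s hm ih =>
    have hi : i ∉ s := fun h => hs (Finset.mem_insert_of_mem h)
    have hmi : m ≠ i := fun h => hs (by rw [h]; exact Finset.mem_insert_self _ _)
    obtain ⟨g, hg, hgv⟩ := ih hi
    refine ⟨g * transv m i hmi (c m), mul_mem hg (transv_mem _ _ _ _), ?_⟩
    rw [Units.val_mul, hgv, transv_val, Finset.sum_insert hm, add_mul, mul_add, mul_add]
    have : (∑ x ∈ s, single x i (c x)) * single m i (c m) = 0 := by
      rw [Finset.sum_mul]
      apply Finset.sum_eq_zero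
      intro x _
      rw [single_mul_single_of_ne _ _ _ _ hmi.symm]
    rw [this]
    simp only [one_mul, mul_one, add_zero]
    abel

lemma diagAdd_mem (i j : Fin n) (hij : i ≠ j) (u α : R) (h : α * u = 0) :
    ∃ g ∈ elemGroup n R, ((g : (Matrix (Fin n) (Fin n) R)ˣ) : Matrix (Fin n) (Fin n) R)
      = 1 + single i i (u * α) := by
  refine ⟨transv i j hij u * transv j i hij.symm α * transv i j hij (-u) * transv j i hij.symm (-α),
    mul_mem (mul_mem (mul_mem (transv_mem _ _ _ _) (transv_mem _ _ _ _)) (transv_mem _ _ _ _))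
      (transv_mem _ _ _ _), ?_⟩
  simp only [Units.val_mul, transv_val]
  simp only [add_mul, mul_add, one_mul, mul_one, single_mul_single_same,
    single_mul_single_of_ne _ _ _ _ hij, single_mul_single_of_ne _ _ _ _ hij.symm, add_zero,
    zero_mul, mul_neg, neg_mul, ← single_neg, h, mul_assoc, mul_zero, single_zero, neg_zero,
    zero_add]
  abel

/-- column-type unipotent matrices are elementary. -/
lemma rk_mem (i j : Fin n) (hij : i ≠ j) (u : Fin n → R) (α : R) (h : α * u i = 0)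
    (h' : (single () i α : Matrix Unit (Fin n) R) * (Matrix.of fun a (_ : Unit) => u a) = 0) :
    rk (Matrix.of fun a (_ : Unit) => u a) (single () i α) h' ∈ elemGroup n R := by
  obtain ⟨g1, hg1, hv1⟩ := colAdd_mem i (fun m => u m * α) (Finset.univ.erase i) (by simp)
  obtain ⟨g2, hg2, hv2⟩ := diagAdd_mem i j hij (u i) α h
  have : rk (Matrix.of fun a (_ : Unit) => u a) (single () i α) h' = g1 * g2 := by
    apply Units.ext
    rw [Units.val_mul, hv1, hv2]
    show 1 + (Matrix.of fun a (_ : Unit) => u a) * single () i α = _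
    rw [add_mul, mul_add, mul_add]
    have hz : (∑ x ∈ Finset.univ.erase i, single x i (u x * α)) * single i i (u i * α)
        = (0 : Matrix (Fin n) (Fin n) R) := by
      rw [Finset.sum_mul]
      apply Finset.sum_eq_zero
      intro x _
      rw [single_mul_single_same, mul_assoc, ← mul_assoc α, h]
      simp
    rw [hz]
    have hs : (Matrix.of fun a (_ : Unit) => u a) * single () i α
        = ∑ m, single m i (u m * α) := by
      ext a b
      rw [Matrix.sum_apply, Matrix.mul_apply]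
      simp only [Finset.univ_unique, Finset.sum_singleton, Matrix.of_apply]
      rw [Finset.sum_eq_single a]
      · by_cases hb : i = b
        · subst hb; simp
        · simp [single_apply, hb]
      · intro c _ hc
        simp [single_apply, hc]
      · simp
    rw [hs, ← Finset.add_sum_erase _ _ (Finset.mem_univ i)]
    simp only [one_mul, mul_one, add_zero]
    abel
  rw [this]
  exact mul_mem hg1 hg2


lemma reach_four {σ ε g : (Matrix (Fin n) (Fin n) R)ˣ} (hε : ε ∈ elemGroup n R) (hg : g ∈ elemGroup n R)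
    (hc : g * ε = ε * g) :
    Reach σ 4 ((σ⁻¹ * ε * σ) * g * (σ⁻¹ * ε * σ)⁻¹ * g⁻¹) := by
  have h1 : Reach σ 1 σ⁻¹ := (Reach.self σ).inv
  have h2 : Reach σ 1 (ε * σ * ε⁻¹) := by
    have := Reach.conj_self σ ε⁻¹ (inv_mem hε)
    rwa [inv_inv] at this
  have h3 : Reach σ 1 (ε * g * σ⁻¹ * g⁻¹ * ε⁻¹) := by
    have := h1.conj (τ := g⁻¹ * ε⁻¹) (mul_mem (inv_mem hg) (inv_mem hε))
    have e : (g⁻¹ * ε⁻¹)⁻¹ * σ⁻¹ * (g⁻¹ * ε⁻¹) = ε * g * σ⁻¹ * g⁻¹ * ε⁻¹ := by group
    rwa [e] at this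
  have h4 : Reach σ 1 (g * σ * g⁻¹) := by
    have := Reach.conj_self σ g⁻¹ (inv_mem hg)
    rwa [inv_inv] at this
  have := ((h1.mul h2).mul h3).mul h4
  have e : σ⁻¹ * (ε * σ * ε⁻¹) * (ε * g * σ⁻¹ * g⁻¹ * ε⁻¹) * (g * σ * g⁻¹)
      = (σ⁻¹ * ε * σ) * g * (σ⁻¹ * ε * σ)⁻¹ * g⁻¹ := by
    have hc' : g⁻¹ * ε⁻¹ * g = ε⁻¹ := by
      have h5 : ε⁻¹ * g = g * ε⁻¹ := by
        rw [inv_mul_eq_iff_eq_mul, ← mul_assoc, ← hc, mul_assoc, mul_inv_cancel, mul_one]
      rw [mul_assoc, h5, ← mul_assoc, inv_mul_cancel, one_mul]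
    calc σ⁻¹ * (ε * σ * ε⁻¹) * (ε * g * σ⁻¹ * g⁻¹ * ε⁻¹) * (g * σ * g⁻¹)
        = σ⁻¹ * ε * σ * g * σ⁻¹ * (g⁻¹ * ε⁻¹ * g) * σ * g⁻¹ := by group
      _ = σ⁻¹ * ε * σ * g * σ⁻¹ * ε⁻¹ * σ * g⁻¹ := by rw [hc']
      _ = _ := by group
  rw [e] at this
  exact this

lemma four_row (σ : (Matrix (Fin n) (Fin n) R)ˣ) (i j k : Fin n) (hij : i ≠ j) (hik : i ≠ k)
    (α b : R) (h1 : α * (σ : Matrix (Fin n) (Fin n) R) i k = 0)
    (h2 : b * (σ : Matrix (Fin n) (Fin n) R) i k = 0) :
    Reach σ 4 (transv k i hik.symm (α * (σ : Matrix (Fin n) (Fin n) R) i j * b)) := by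
  set s : Matrix (Fin n) (Fin n) R := (σ : Matrix (Fin n) (Fin n) R) with hs
  have hΦU : (single () i α : Matrix Unit (Fin n) R) * (Matrix.of fun a (_ : Unit) => s a k) = 0 := by
    ext x y
    simp [Matrix.mul_apply, single_apply, h1]
  set ε := rk (Matrix.of fun a (_ : Unit) => s a k) (single () i α) hΦU with hε
  have hεmem : ε ∈ elemGroup n R := rk_mem i j hij (fun a => s a k) α h1 hΦU
  have hεv : (ε : Matrix (Fin n) (Fin n) R) = 1 + (Matrix.of fun a (_ : Unit) => s a k) *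
    single () i α := rfl
  set V : Matrix (Fin n) Unit R := single k () 1 with hV
  have hU : (Matrix.of fun a (_ : Unit) => s a k) = s * V := by
    ext x y
    simp [hV, Matrix.mul_apply, single_apply]
  rw [hU] at hεv
  set Φ : Matrix Unit (Fin n) R := single () i α with hΦ
  rw [hU] at hΦU
  set g := transv j i hij.symm b with hg
  have hgv : (g : Matrix (Fin n) (Fin n) R) = 1 + single j i b := rfl
  have hgmem : g ∈ elemGroup n R := transv_mem _ _ _ _
  -- commutation
  have hc : g * ε = ε * g := by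
    apply Units.ext
    rw [Units.val_mul, Units.val_mul, hεv, hgv]
    have e1 : single j i b * (s * V * Φ) = 0 := by
      rw [← Matrix.mul_assoc]
      have : single j i b * (s * V) = 0 := by
        rw [← hU]
        ext x y
        rw [Matrix.mul_apply, Finset.sum_eq_single i]
        · by_cases hx : j = x
          · simp [single_apply, hx, h2]
          · simp [single_apply, hx]
        · intro c _ hc
          simp [single_apply, hc.symm]
        · simp
      rw [this, Matrix.zero_mul]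
    have e2 : (s * V * Φ) * single j i b = 0 := by
      rw [Matrix.mul_assoc, hΦ, single_mul_single_of_ne _ _ _ _ hij, Matrix.mul_zero]
    simp only [add_mul, mul_add, one_mul, mul_one, e1, e2, add_zero]
    abel
  have key := reach_four (σ := σ) hεmem hgmem hc
  have hA : ((σ⁻¹ * ε * σ : (Matrix (Fin n) (Fin n) R)ˣ) : Matrix (Fin n) (Fin n) R)
      = 1 + V * (Φ * s) := by
    rw [Units.val_mul, Units.val_mul, hεv, mul_add, add_mul, mul_one, ← hs]
    have e1 : ((σ⁻¹ : (Matrix (Fin n) (Fin n) R)ˣ) : Matrix (Fin n) (Fin n) R) * s = 1 := by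
      rw [hs, ← Units.val_mul]; simp
    rw [e1]
    congr 1
    rw [Matrix.mul_assoc s, ← Matrix.mul_assoc _ s, e1, Matrix.one_mul, Matrix.mul_assoc]
  have hfin : (σ⁻¹ * ε * σ) * g * (σ⁻¹ * ε * σ)⁻¹ * g⁻¹ = transv k i hik.symm (α * s i j * b) := by
    generalize σ⁻¹ * ε * σ = A at hA
    rw [mul_inv_eq_iff_eq_mul, mul_inv_eq_iff_eq_mul]
    apply Units.ext
    rw [Units.val_mul, Units.val_mul, Units.val_mul, hA, hgv, transv_val]
    have e1 : V * (Φ * s) * single j i b = single k i (α * s i j * b) := by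
      ext x y
      simp only [Matrix.mul_apply, hV, hΦ, Finset.univ_unique, Finset.sum_singleton, single_apply]
      by_cases hx : k = x <;> by_cases hy : i = y <;> simp [hx, hy, Finset.sum_ite_eq]
    have e2 : single j i b * (V * (Φ * s)) = 0 := by
      rw [← Matrix.mul_assoc, hV, single_mul_single_of_ne _ _ _ _ hik, Matrix.zero_mul]
    have e3 : single k i (α * s i j * b) * (V * (Φ * s)) = 0 := by
      rw [← Matrix.mul_assoc, hV, single_mul_single_of_ne _ _ _ _ hik, Matrix.zero_mul]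
    have e4 : single k i (α * s i j * b) * single j i b = 0 := by
      rw [single_mul_single_of_ne _ _ _ _ hij]
    simp only [add_mul, mul_add, one_mul, mul_one, e1, e2, e3, e4, add_zero]
    abel
  rw [hfin] at key
  exact key


lemma Reach.of_inv {σ X : (Matrix (Fin n) (Fin n) R)ˣ} {m : ℕ} (h : Reach σ⁻¹ m X) :
    Reach σ m X := by
  have := (Reach.self σ).inv.trans h
  rwa [one_mul] at this

lemma rowAdd_mem (i : Fin n) (c : Fin n → R) (s : Finset (Fin n)) (hs : i ∉ s) :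
    ∃ g ∈ elemGroup n R, ((g : (Matrix (Fin n) (Fin n) R)ˣ) : Matrix (Fin n) (Fin n) R)
      = 1 + ∑ m ∈ s, single i m (c m) := by
  induction s using Finset.induction_on with
  | empty => exact ⟨1, one_mem _, by simp⟩
  | insert m s hm ih =>
    have hi : i ∉ s := fun h => hs (Finset.mem_insert_of_mem h)
    have hmi : i ≠ m := fun h => hs (by rw [h]; exact Finset.mem_insert_self _ _)
    obtain ⟨g, hg, hgv⟩ := ih hi
    refine ⟨transv i m hmi (c m) * g, mul_mem (transv_mem _ _ _ _) hg, ?_⟩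
    rw [Units.val_mul, hgv, transv_val, Finset.sum_insert hm, add_mul, mul_add, mul_add]
    have : single i m (c m) * (∑ x ∈ s, single i x (c x)) = 0 := by
      rw [Finset.mul_sum]
      apply Finset.sum_eq_zero
      intro x _
      rw [single_mul_single_of_ne _ _ _ _ hmi.symm]
    rw [this]
    simp only [one_mul, mul_one, add_zero]
    abel

lemma rkrow_mem (i j : Fin n) (hij : i ≠ j) (c : Fin n → R) (α : R) (h : c i * α = 0)
    (ε : (Matrix (Fin n) (Fin n) R)ˣ)
    (hε : (ε : Matrix (Fin n) (Fin n) R) = 1 + ∑ m, single i m (α * c m)) :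
    ε ∈ elemGroup n R := by
  obtain ⟨g1, hg1, hv1⟩ := rowAdd_mem i (fun m => α * c m) (Finset.univ.erase i) (by simp)
  obtain ⟨g2, hg2, hv2⟩ := diagAdd_mem i j hij α (c i) h
  have : ε = g2 * g1 := by
    apply Units.ext
    rw [Units.val_mul, hv1, hv2, hε]
    rw [add_mul, mul_add, mul_add]
    have hz : single i i (α * c i) * (∑ x ∈ Finset.univ.erase i, single i x (α * c x))
        = (0 : Matrix (Fin n) (Fin n) R) := by
      rw [Finset.mul_sum]
      apply Finset.sum_eq_zero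
      intro x _
      rw [single_mul_single_same, mul_assoc, ← mul_assoc (c i), h]
      simp
    rw [hz, ← Finset.add_sum_erase _ _ (Finset.mem_univ i)]
    simp only [one_mul, mul_one, add_zero]
    abel
  rw [this]
  exact mul_mem hg2 hg1

lemma four_col (σ : (Matrix (Fin n) (Fin n) R)ˣ) (i j k : Fin n) (hij : i ≠ j) (hik : i ≠ k)
    (α b : R) (h1 : (σ : Matrix (Fin n) (Fin n) R) k i * α = 0)
    (h2 : (σ : Matrix (Fin n) (Fin n) R) k i * b = 0) :
    Reach σ 4 (transv i k hik (b * (σ : Matrix (Fin n) (Fin n) R) j i * α)) := by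
  set s : Matrix (Fin n) (Fin n) R := (σ : Matrix (Fin n) (Fin n) R) with hs
  set V : Matrix (Fin n) Unit R := single i () α with hV
  set W : Matrix Unit (Fin n) R := single () k 1 with hW
  have hWV : (W * s) * V = 0 := by
    ext x y
    simp [Matrix.mul_apply, hV, hW, single_apply, h1]
  set ε := rk V (W * s) hWV with hε
  have hεv : (ε : Matrix (Fin n) (Fin n) R) = 1 + V * (W * s) := rfl
  have hεmem : ε ∈ elemGroup n R := by
    apply rkrow_mem i j hij (fun m => s k m) α h1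
    rw [hεv]
    congr 1
    ext x y
    rw [Matrix.sum_apply, Matrix.mul_apply]
    simp only [Matrix.mul_apply, hV, hW, Finset.univ_unique, Finset.sum_singleton, single_apply]
    by_cases hx : i = x <;> simp [hx, Finset.sum_ite_eq]
  set g := transv i j hij b with hg
  have hgv : (g : Matrix (Fin n) (Fin n) R) = 1 + single i j b := rfl
  have hgmem : g ∈ elemGroup n R := transv_mem _ _ _ _
  have hc : g * ε = ε * g := by
    apply Units.ext
    rw [Units.val_mul, Units.val_mul, hεv, hgv]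
    have e1 : single i j b * (V * (W * s)) = 0 := by
      rw [← Matrix.mul_assoc, hV, single_mul_single_of_ne _ _ _ _ hij.symm, Matrix.zero_mul]
    have e2 : (V * (W * s)) * single i j b = 0 := by
      have : (W * s) * single i j b = 0 := by
        ext x y
        simp only [Matrix.mul_apply, hW, single_apply]
        by_cases hy : j = y <;> simp [hy, h2]
      rw [Matrix.mul_assoc, this, Matrix.mul_zero]
    simp only [add_mul, mul_add, one_mul, mul_one, e1, e2, add_zero]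
    abel
  have key := (reach_four (σ := σ⁻¹) hεmem hgmem hc).of_inv.inv
  rw [inv_inv] at key
  have hA : ((σ * ε * σ⁻¹ : (Matrix (Fin n) (Fin n) R)ˣ) : Matrix (Fin n) (Fin n) R)
      = 1 + (s * V) * W := by
    rw [Units.val_mul, Units.val_mul, hεv, mul_add, add_mul, mul_one, ← hs]
    have e1 : s * ((σ⁻¹ : (Matrix (Fin n) (Fin n) R)ˣ) : Matrix (Fin n) (Fin n) R) = 1 := by
      rw [hs, ← Units.val_mul]; simp
    rw [e1]
    congr 1
    rw [Matrix.mul_assoc s, Matrix.mul_assoc V, Matrix.mul_assoc W, e1, Matrix.mul_one,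
      Matrix.mul_assoc]
  have hfin : ((σ * ε * σ⁻¹) * g * (σ * ε * σ⁻¹)⁻¹ * g⁻¹)⁻¹ = transv i k hik (b * s j i * α) := by
    generalize σ * ε * σ⁻¹ = A at hA
    have : (A * g * A⁻¹ * g⁻¹)⁻¹ = g * A * g⁻¹ * A⁻¹ := by group
    rw [this]
    rw [mul_inv_eq_iff_eq_mul, mul_inv_eq_iff_eq_mul]
    apply Units.ext
    rw [Units.val_mul, Units.val_mul, Units.val_mul, hA, hgv, transv_val]
    have e1 : single i j b * ((s * V) * W) = single i k (b * s j i * α) := by
      ext x y
      simp only [Matrix.mul_apply, hV, hW, Finset.univ_unique, Finset.sum_singleton, single_apply]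
      by_cases hx : i = x <;> by_cases hy : k = y <;> simp [hx, hy, Finset.sum_ite_eq, mul_assoc]
    have e2 : ((s * V) * W) * single i j b = 0 := by
      rw [Matrix.mul_assoc, hW, single_mul_single_of_ne _ _ _ _ hik.symm, Matrix.mul_zero]
    have e3 : single i k (b * s j i * α) * single i j b = 0 := by
      rw [single_mul_single_of_ne _ _ _ _ hik.symm]
    have e4 : single i k (b * s j i * α) * (s * V * W) =
        (single i k (b * s j i * α) * (s * V)) * W := by
      simp only [Matrix.mul_assoc]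
    have e5 : single i k (b * s j i * α) * (s * V) = 0 := by
      ext x y
      simp only [Matrix.mul_apply, hV, single_apply]
      by_cases hx : i = x
      · subst hx; simp [h1]
      · simp [hx]
    rw [e5, Matrix.zero_mul] at e4
    simp only [add_mul, mul_add, one_mul, mul_one, e1, e2, e3, e4, add_zero]
    abel
  rw [hfin] at key
  exact key


lemma exists_third (hn : 3 ≤ n) (k l : Fin n) : ∃ p : Fin n, p ≠ k ∧ p ≠ l := by
  classical
  have h : ({k, l} : Finset (Fin n)).card < (Finset.univ : Finset (Fin n)).card := by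
    refine lt_of_le_of_lt Finset.card_le_two ?_
    simp only [Finset.card_univ, Fintype.card_fin]
    omega
  obtain ⟨p, _, hp⟩ := Finset.exists_mem_notMem_of_card_lt_card h
  simp only [Finset.mem_insert, Finset.mem_singleton, not_or] at hp
  exact ⟨p, hp.1, hp.2⟩

lemma Reach.move_second {σ : (Matrix (Fin n) (Fin n) R)ˣ} {m : ℕ} {k l : Fin n} {hkl : k ≠ l}
    {a : R} (h : Reach σ m (transv k l hkl a)) (l' : Fin n) (hkl' : k ≠ l') :
    Reach σ m (transv k l' hkl' a) := by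
  by_cases hll : l = l'
  · subst hll; exact h
  · have := h.conj (wA_mem l l' hll 1 1)
    rw [conj_second k l l' hkl hkl' hll 1 1 a (by simp) (by simp), mul_one] at this
    exact this

lemma Reach.move_first {σ : (Matrix (Fin n) (Fin n) R)ˣ} {m : ℕ} {k l : Fin n} {hkl : k ≠ l}
    {a : R} (h : Reach σ m (transv k l hkl a)) (k' : Fin n) (hkl' : k' ≠ l) :
    Reach σ m (transv k' l hkl' a) := by
  by_cases hkk : k = k'
  · subst hkk; exact h
  · have := h.conj (wA_mem k k' hkk 1 1)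
    rw [conj_first k l k' hkl hkk hkl' a] at this
    exact this

lemma Reach.move (hn : 3 ≤ n) {σ : (Matrix (Fin n) (Fin n) R)ˣ} {m : ℕ} {k l : Fin n}
    {hkl : k ≠ l} {a : R} (h : Reach σ m (transv k l hkl a)) (k' l' : Fin n) (hkl' : k' ≠ l') :
    Reach σ m (transv k' l' hkl' a) := by
  by_cases hk'l : k' = l
  · subst hk'l
    obtain ⟨p, hp1, hp2⟩ := exists_third hn k k'
    exact ((h.move_second p hp1.symm).move_first k' hp2.symm).move_second l' hkl'
  · exact (h.move_first k' hk'l).move_second l' hkl'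

lemma Reach.neg {σ : (Matrix (Fin n) (Fin n) R)ˣ} {m : ℕ} {k l : Fin n}
    {hkl : k ≠ l} {a : R} (h : Reach σ m (transv k l hkl (-a))) : Reach σ m (transv k l hkl a) := by
  have := h.inv
  rwa [transv_inv, neg_neg] at this

/-! ### Upper bounds -/

lemma upper_vnr (hn : 3 ≤ n) (hR : ∀ a : R, ∃ x : R, a * x * a = a) : IsRDUBoundGL n 4 R := by
  intro σ k' l' hkl' i j hij
  obtain ⟨k, hki, hkj⟩ := exists_third hn i j
  obtain ⟨x, hx⟩ := hR ((σ : Matrix (Fin n) (Fin n) R) i j)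
  set s : Matrix (Fin n) (Fin n) R := (σ : Matrix (Fin n) (Fin n) R) with hs
  set a := s i j with ha
  set τ := transv j k hkj.symm (-(x * s i k)) with hτ
  set ξ := τ⁻¹ * σ * τ with hξ
  have hreach : Reach σ 1 ξ := Reach.conj_self σ τ (transv_mem _ _ _ _)
  have hξv : (ξ : Matrix (Fin n) (Fin n) R) = (1 + single j k (x * s i k)) * s *
      (1 + single j k (-(x * s i k))) := by
    rw [hξ, hτ, transv_inv, neg_neg, Units.val_mul, Units.val_mul, transv_val, transv_val]
  have e1 : (ξ : Matrix (Fin n) (Fin n) R) i j = a := by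
    rw [hξv]
    simp only [add_mul, mul_add, one_mul, mul_one, Matrix.add_apply]
    rw [Matrix.mul_assoc, single_mul_apply_of_ne _ _ _ _ _ hij,
      single_mul_apply_of_ne _ _ _ _ _ hij, mul_single_apply_of_ne _ _ _ _ _ hkj.symm]
    simp [ha]
  have e2 : (ξ : Matrix (Fin n) (Fin n) R) i k = s i k - a * (x * s i k) := by
    rw [hξv]
    simp only [add_mul, mul_add, one_mul, mul_one, Matrix.add_apply]
    rw [Matrix.mul_assoc, single_mul_apply_of_ne _ _ _ _ _ hij,
      single_mul_apply_of_ne _ _ _ _ _ hij, mul_single_apply_same]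
    simp [ha, sub_eq_add_neg]
  have h1 : (a * x) * (ξ : Matrix (Fin n) (Fin n) R) i k = 0 := by
    rw [e2, mul_sub, sub_eq_zero]
    rw [← mul_assoc a, ← mul_assoc (a * x), ← mul_assoc (a * x), hx]
  have h2 : (x * (a * x)) * (ξ : Matrix (Fin n) (Fin n) R) i k = 0 := by
    rw [mul_assoc, h1, mul_zero]
  have key := four_row ξ i j k hij hki.symm (a * x) (x * (a * x)) h1 h2
  rw [e1] at key
  have e3 : a * x * a * (x * (a * x)) = a * x := by
    rw [hx, ← mul_assoc a, ← mul_assoc, hx]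
  rw [e3] at key
  have key2 := key.conj (wA_mem i j hij a x)
  rw [conj_second k i j hki hkj hij a x (a * x) hx (by rw [← mul_assoc, hx]), hx] at key2
  have key3 := hreach.trans key2
  exact (key3.mono (by norm_num)).move hn k' l' hkl'


lemma mul_row_congr {A B : Matrix (Fin n) (Fin n) R} {i : Fin n} (h : ∀ y, A i y = B i y)
    (C : Matrix (Fin n) (Fin n) R) (y : Fin n) : (A * C) i y = (B * C) i y := by
  simp only [Matrix.mul_apply, h]

lemma mul_col_congr {A B : Matrix (Fin n) (Fin n) R} {j : Fin n} (h : ∀ y, A y j = B y j)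
    (C : Matrix (Fin n) (Fin n) R) (y : Fin n) : (C * A) y j = (C * B) y j := by
  simp only [Matrix.mul_apply, h]

lemma upper_comm (hn : 3 ≤ n) (hR : ∀ a b : R, a * b = b * a) : IsRDUBoundGL n 8 R := by
  intro σ k' l' hkl' i j hij
  obtain ⟨k, hki, hkj⟩ := exists_third hn i j
  set s : Matrix (Fin n) (Fin n) R := (σ : Matrix (Fin n) (Fin n) R) with hs
  set τ := transv i k hki.symm (s i j) * transv j k hkj.symm (-(s i i)) with hτ
  have hτmem : τ ∈ elemGroup n R := mul_mem (transv_mem _ _ _ _) (transv_mem _ _ _ _)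
  have hτv : (τ : Matrix (Fin n) (Fin n) R) = 1 + single i k (s i j) - single j k (s i i) := by
    rw [hτ, Units.val_mul, transv_val, transv_val]
    rw [add_mul, mul_add, mul_add, single_mul_single_of_ne _ _ _ _ hkj, ← single_neg]
    simp only [one_mul, mul_one, add_zero]
    abel
  have hτv' : ((τ⁻¹ : (Matrix (Fin n) (Fin n) R)ˣ) : Matrix (Fin n) (Fin n) R)
      = 1 - single i k (s i j) + single j k (s i i) := by
    rw [hτ, _root_.mul_inv_rev, transv_inv, transv_inv, neg_neg, Units.val_mul, transv_val, transv_val]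
    rw [add_mul, mul_add, mul_add, single_mul_single_of_ne _ _ _ _ hki, ← single_neg]
    simp only [one_mul, mul_one, add_zero]
    abel
  set ξ := σ * (τ * σ⁻¹ * τ⁻¹) with hξ
  have hreach : Reach σ 2 ξ := by
    have h1 := (Reach.self σ).inv.conj (inv_mem hτmem)
    rw [inv_inv] at h1
    exact (Reach.self σ).mul h1
  -- the i-th row of ξ
  have hrow1 : ∀ y, (s * (τ : Matrix (Fin n) (Fin n) R)) i y = s i y := by
    intro y
    rw [hτv]
    simp only [mul_add, mul_sub, mul_one, Matrix.add_apply, Matrix.sub_apply]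
    by_cases hy : y = k
    · subst hy
      rw [mul_single_apply_same, mul_single_apply_same, hR (s i i)]
      simp
    · rw [mul_single_apply_of_ne _ _ _ _ _ hy, mul_single_apply_of_ne _ _ _ _ _ hy]
      simp
  have hσσ : s * ((σ⁻¹ : (Matrix (Fin n) (Fin n) R)ˣ) : Matrix (Fin n) (Fin n) R) = 1 := by
    rw [hs, ← Units.val_mul]; simp
  have hrow3 : ∀ y, (ξ : Matrix (Fin n) (Fin n) R) i y
      = ((τ⁻¹ : (Matrix (Fin n) (Fin n) R)ˣ) : Matrix (Fin n) (Fin n) R) i y := by
    intro y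
    have e : ξ = σ * τ * (σ⁻¹ * τ⁻¹) := by rw [hξ]; group
    rw [e, Units.val_mul, Units.val_mul, mul_row_congr hrow1, Units.val_mul, ← Matrix.mul_assoc,
      hσσ, Matrix.one_mul]
  have e1 : (ξ : Matrix (Fin n) (Fin n) R) i j = 0 := by
    rw [hrow3, hτv']
    simp [single_apply, hij, hkj, hij.symm]
  have e2 : (ξ : Matrix (Fin n) (Fin n) R) i k = -(s i j) := by
    rw [hrow3, hτv']
    simp [single_apply, hki.symm, hij.symm]
  have key := four_row ξ i k j hki.symm hij 1 1 (by rw [e1, mul_zero]) (by rw [e1, mul_zero])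
  rw [e2, one_mul, mul_one] at key
  exact (hreach.trans key).neg.move hn k' l' hkl'

lemma upper_sr (hn : 3 ≤ n) (hR : ∀ a b : R, (∃ x y : R, x * a + y * b = 1) →
    ∃ c : R, IsUnit (a + c * b)) : IsRDUBoundGL n 8 R := by
  intro σ₀ k' l' hkl' i j hij
  obtain ⟨k, hki, hkj⟩ := exists_third hn i j
  set s₀ : Matrix (Fin n) (Fin n) R := (σ₀ : Matrix (Fin n) (Fin n) R) with hs₀
  set t : Matrix (Fin n) (Fin n) R := ((σ₀⁻¹ : (Matrix (Fin n) (Fin n) R)ˣ) :
    Matrix (Fin n) (Fin n) R) with ht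
  have hts : t * s₀ = 1 := by rw [ht, hs₀, ← Units.val_mul]; simp
  set b := ∑ m ∈ Finset.univ.erase j, t j m * s₀ m j with hb
  have hone : t j j * s₀ j j + 1 * b = 1 := by
    have : (t * s₀) j j = 1 := by rw [hts]; simp
    rw [Matrix.mul_apply, ← Finset.add_sum_erase _ _ (Finset.mem_univ j)] at this
    rw [one_mul]
    exact this
  obtain ⟨c, w, hw⟩ := hR _ _ ⟨_, _, hone⟩
  -- conjugating element
  obtain ⟨g, hg, hgv⟩ := rowAdd_mem j (fun m => c * t j m) (Finset.univ.erase j) (by simp)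
  have hgcol : ∀ y, (g : Matrix (Fin n) (Fin n) R) y j = (1 : Matrix (Fin n) (Fin n) R) y j := by
    intro y
    rw [hgv, Matrix.add_apply, Matrix.sum_apply, Finset.sum_eq_zero, add_zero]
    intro m hm
    have : m ≠ j := Finset.ne_of_mem_erase hm
    simp [single_apply, this]
  have hgicol : ∀ y, ((g⁻¹ : (Matrix (Fin n) (Fin n) R)ˣ) : Matrix (Fin n) (Fin n) R) y j
      = (1 : Matrix (Fin n) (Fin n) R) y j := by
    intro y
    have h := mul_col_congr hgcol ((g⁻¹ : (Matrix (Fin n) (Fin n) R)ˣ) : Matrix (Fin n) (Fin n) R) y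
    rw [Matrix.mul_one, ← Units.val_mul, inv_mul_cancel, Units.val_one] at h
    exact h.symm
  set σ := g * σ₀ * g⁻¹ with hσ
  have hσreach : Reach σ₀ 1 σ := by
    have := Reach.conj_self σ₀ g⁻¹ (inv_mem hg)
    rwa [inv_inv] at this
  set s : Matrix (Fin n) (Fin n) R := (σ : Matrix (Fin n) (Fin n) R) with hs
  have hscol : ∀ y, s y j = ((g : Matrix (Fin n) (Fin n) R) * s₀) y j := by
    intro y
    rw [hs, hσ, Units.val_mul, mul_col_congr hgicol, Matrix.mul_one, Units.val_mul]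
  have hsi : s i j = s₀ i j := by
    rw [hscol, hgv, add_mul, Matrix.add_apply, Matrix.one_mul, Finset.sum_mul, Matrix.sum_apply,
      Finset.sum_eq_zero, add_zero]
    intro m _
    rw [single_mul_apply_of_ne _ _ _ _ _ hij]
  have hsj : s j j = w := by
    rw [hscol, hgv, add_mul, Matrix.add_apply, Matrix.one_mul, Finset.sum_mul, Matrix.sum_apply,
      hw, hb, Finset.mul_sum]
    congr 1
    apply Finset.sum_congr rfl
    intro m _
    rw [single_mul_apply_same, mul_assoc]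
  -- second element
  set v : R := ((w⁻¹ : Rˣ) : R) with hv
  have hwv : (w : R) * v = 1 := by rw [hv]; simp
  have hvw : v * (w : R) = 1 := by rw [hv]; simp
  set a := s₀ i j with ha
  set τ := transv k i hki 1 * transv k j hkj (-(a * v)) with hτ
  have hτmem : τ ∈ elemGroup n R := mul_mem (transv_mem _ _ _ _) (transv_mem _ _ _ _)
  have hτv : (τ : Matrix (Fin n) (Fin n) R) = 1 + single k i 1 - single k j (a * v) := by
    rw [hτ, Units.val_mul, transv_val, transv_val]
    rw [add_mul, mul_add, mul_add, single_mul_single_of_ne _ _ _ _ hki.symm, ← single_neg]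
    simp only [one_mul, mul_one, add_zero]
    abel
  set ξ := (τ * σ⁻¹ * τ⁻¹) * σ with hξ
  have hreach : Reach σ 2 ξ := by
    have h1 := (Reach.self σ).inv.conj (inv_mem hτmem)
    rw [inv_inv] at h1
    exact h1.mul (Reach.self σ)
  have hcol1 : ∀ y, ((τ : Matrix (Fin n) (Fin n) R) * s) y j = s y j := by
    intro y
    rw [hτv]
    simp only [add_mul, sub_mul, one_mul, Matrix.add_apply, Matrix.sub_apply]
    by_cases hy : y = k
    · subst hy
      rw [single_mul_apply_same, single_mul_apply_same, hsi, hsj, mul_assoc, hvw]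
      simp
    · rw [single_mul_apply_of_ne _ _ _ _ _ hy, single_mul_apply_of_ne _ _ _ _ _ hy]
      simp
  have hcol2 : ∀ y, (((τ⁻¹ : (Matrix (Fin n) (Fin n) R)ˣ) : Matrix (Fin n) (Fin n) R) * s) y j
      = s y j := by
    intro y
    have h := mul_col_congr hcol1 ((τ⁻¹ : (Matrix (Fin n) (Fin n) R)ˣ) : Matrix (Fin n) (Fin n) R) y
    rw [← Matrix.mul_assoc, ← Units.val_mul, inv_mul_cancel, Units.val_one, Matrix.one_mul] at h
    exact h.symm
  have hσσ : ((σ⁻¹ : (Matrix (Fin n) (Fin n) R)ˣ) : Matrix (Fin n) (Fin n) R) * s = 1 := by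
    rw [hs, ← Units.val_mul]; simp
  have hcol3 : ∀ y, (ξ : Matrix (Fin n) (Fin n) R) y j = (τ : Matrix (Fin n) (Fin n) R) y j := by
    intro y
    have e : ξ = τ * σ⁻¹ * (τ⁻¹ * σ) := by rw [hξ]; group
    rw [e, Units.val_mul, Units.val_mul τ⁻¹, mul_col_congr hcol2, Units.val_mul, Matrix.mul_assoc,
      hσσ, Matrix.mul_one]
  have e1 : (ξ : Matrix (Fin n) (Fin n) R) i j = 0 := by
    rw [hcol3, hτv]
    simp [single_apply, hij, hki]
  have e2 : (ξ : Matrix (Fin n) (Fin n) R) k j = -(a * v) := by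
    rw [hcol3, hτv]
    simp [single_apply, hkj, hij]
  have key := four_col ξ j k i hkj.symm hij.symm 1 1 (by rw [e1, zero_mul])
    (by rw [e1, zero_mul])
  rw [e2, one_mul, mul_one] at key
  have key2 := key.conj (wA_mem i k hki.symm (w : R) v)
  rw [conj_second j i k hij.symm hkj.symm hki.symm (w : R) v (-(a * v)) (by rw [hwv, one_mul])
    (by rw [hwv, mul_one]), neg_mul, mul_assoc, hvw, mul_one] at key2
  exact ((hσreach.trans (hreach.trans key2)).neg.mono (by norm_num)).move hn k' l' hkl'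


end upper

/-! ### transfer along ring isomorphisms -/

section transfer
variable {R : Type u} {S : Type v} [Ring R] [Ring S] {n : ℕ}

/-- the map on general linear groups induced by a ring homomorphism. -/
def mapGL (n : ℕ) (e : R →+* S) : (Matrix (Fin n) (Fin n) R)ˣ →* (Matrix (Fin n) (Fin n) S)ˣ :=
  Units.map (e.mapMatrix : Matrix (Fin n) (Fin n) R →+* Matrix (Fin n) (Fin n) S).toMonoidHom

lemma mapGL_val (e : R →+* S) (g : (Matrix (Fin n) (Fin n) R)ˣ) (i j : Fin n) :
    (mapGL n e g : Matrix (Fin n) (Fin n) S) i j = e ((g : Matrix (Fin n) (Fin n) R) i j) := rfl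

lemma mapGL_transv (e : R →+* S) (k l : Fin n) (h : k ≠ l) (a : R) :
    mapGL n e (transv k l h a) = transv k l h (e a) := by
  apply Units.ext
  ext x y
  rw [mapGL_val, transv_val, transv_val]
  simp only [Matrix.add_apply, map_add, Matrix.single_apply, Matrix.one_apply]
  split_ifs <;> simp

lemma mapGL_mem (e : R →+* S) {g : (Matrix (Fin n) (Fin n) R)ˣ} (hg : g ∈ elemGroup n R) :
    mapGL n e g ∈ elemGroup n S := by
  have : elemGroup n R ≤ (elemGroup n S).comap (mapGL n e) := by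
    rw [elemGroup, Subgroup.closure_le]
    rintro _ ⟨k, l, h, a, rfl⟩
    show mapGL n e (transv k l h a) ∈ elemGroup n S
    rw [mapGL_transv]
    exact transv_mem _ _ _ _
  exact this hg

lemma IsRDUBoundGL.of_equiv {m : ℕ} (e : R ≃+* S) (h : IsRDUBoundGL n m R) :
    IsRDUBoundGL n m S := by
  intro σ k l hkl i j hij
  have hmap : ∀ g : (Matrix (Fin n) (Fin n) S)ˣ, mapGL n (e : R →+* S)
      (mapGL n (e.symm : S →+* R) g) = g := by
    intro g
    apply Units.ext
    ext x y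
    rw [mapGL_val, mapGL_val]
    simp
  obtain ⟨L, h1, h2, h3⟩ := h (mapGL n (e.symm : S →+* R) σ) k l hkl i j hij
  refine ⟨L.map (mapGL n (e : R →+* S)), by simpa using h1, ?_, ?_⟩
  · intro g hg
    obtain ⟨g', hg', rfl⟩ := List.mem_map.mp hg
    obtain ⟨τ, hτ, h | h⟩ := h2 g' hg'
    · refine ⟨mapGL n (e : R →+* S) τ, mapGL_mem _ hτ, Or.inl ?_⟩
      rw [h, map_mul, map_mul, map_inv, hmap]
    · refine ⟨mapGL n (e : R →+* S) τ, mapGL_mem _ hτ, Or.inr ?_⟩
      rw [h, map_mul, map_mul, map_inv, map_inv, hmap]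
  · rw [← map_list_prod, h3, mapGL_transv, mapGL_val]
    simp

end transfer

/-! ### The field with five elements -/

instance : Fact (Nat.Prime 5) := ⟨by norm_num⟩

/-- companion matrix of `x^3 - x - 2`. -/
def comp5 : Matrix (Fin 3) (Fin 3) (ZMod 5) := !![0, 0, 2; 1, 0, 1; 0, 1, 0]

def comp5inv : Matrix (Fin 3) (Fin 3) (ZMod 5) := !![2, 1, 0; 0, 0, 1; 3, 0, 0]

/-- as a unit. -/
def sig5 : (Matrix (Fin 3) (Fin 3) (ZMod 5))ˣ where
  val := comp5
  inv := comp5inv
  val_inv := by decide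
  inv_val := by decide

lemma det5 : (sig5 : Matrix (Fin 3) (Fin 3) (ZMod 5)).det = 2 := by
  show comp5.det = 2
  rw [comp5, Matrix.det_fin_three]
  decide

lemma cubic5aux : ∀ a b c : ZMod 5, ¬ (a = 0 ∧ b = 0 ∧ c = 0) →
    (a + 2 * c) * a * a - (a + 2 * c) * (b + c) * b - c * b * a + c * (b + c) * (3 * c) +
      (2 * b) * b * b - (2 * b) * a * (3 * c) ≠ 0 := by
  decide

lemma cubic5 (a b c : ZMod 5) (h : ¬ (a = 0 ∧ b = 0 ∧ c = 0)) :
    (a • (1 : Matrix (Fin 3) (Fin 3) (ZMod 5)) + b • comp5 + c • comp5inv).det ≠ 0 := by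
  have e : a • (1 : Matrix (Fin 3) (Fin 3) (ZMod 5)) + b • comp5 + c • comp5inv
      = !![a + 2 * c, c, 2 * b; b, a, b + c; 3 * c, b, a] := by
    ext x y
    fin_cases x <;> fin_cases y <;> simp [comp5, comp5inv] <;> ring
  rw [e, Matrix.det_fin_three]
  simpa using cubic5aux a b c h

/-- no conjugate of `σ` has zero `(1,0)` entries in it and in its inverse. -/
lemma no_zero (τ : (Matrix (Fin 3) (Fin 3) (ZMod 5))ˣ)
    (h1 : ((τ⁻¹ * sig5 * τ : (Matrix (Fin 3) (Fin 3) (ZMod 5))ˣ) :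
      Matrix (Fin 3) (Fin 3) (ZMod 5)) 1 0 = 0)
    (h2 : ((τ⁻¹ * sig5⁻¹ * τ : (Matrix (Fin 3) (Fin 3) (ZMod 5))ˣ) :
      Matrix (Fin 3) (Fin 3) (ZMod 5)) 1 0 = 0) : False := by
  set X : Matrix (Fin 3) (Fin 3) (ZMod 5) := ((τ⁻¹ * sig5 * τ :
    (Matrix (Fin 3) (Fin 3) (ZMod 5))ˣ) : Matrix (Fin 3) (Fin 3) (ZMod 5)) with hX
  set Y : Matrix (Fin 3) (Fin 3) (ZMod 5) := ((τ⁻¹ * sig5⁻¹ * τ :
    (Matrix (Fin 3) (Fin 3) (ZMod 5))ˣ) : Matrix (Fin 3) (Fin 3) (ZMod 5)) with hY
  have hex : ∃ a b c : ZMod 5, ¬ (a = 0 ∧ b = 0 ∧ c = 0) ∧ a + b * X 0 0 + c * Y 0 0 = 0 ∧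
      b * X 2 0 + c * Y 2 0 = 0 := by
    by_cases hx : X 2 0 = 0 ∧ Y 2 0 = 0
    · refine ⟨-X 0 0, 1, 0, by simp, by ring, by rw [hx.1]; ring⟩
    · refine ⟨-(Y 2 0 * X 0 0 - X 2 0 * Y 0 0), Y 2 0, -X 2 0, ?_, by ring, by ring⟩
      rintro ⟨_, h4, h5⟩
      exact hx ⟨by simpa using h5, h4⟩
  obtain ⟨a, b, c, habc, e1, e2⟩ := hex
  have hconj : a • (1 : Matrix (Fin 3) (Fin 3) (ZMod 5)) + b • X + c • Y
      = ((τ⁻¹ : (Matrix (Fin 3) (Fin 3) (ZMod 5))ˣ) : Matrix (Fin 3) (Fin 3) (ZMod 5)) *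
        (a • (1 : Matrix (Fin 3) (Fin 3) (ZMod 5)) + b • comp5 + c • comp5inv) *
        (τ : Matrix (Fin 3) (Fin 3) (ZMod 5)) := by
    have ex : X = ((τ⁻¹ : (Matrix (Fin 3) (Fin 3) (ZMod 5))ˣ) : Matrix (Fin 3) (Fin 3) (ZMod 5)) *
        comp5 * (τ : Matrix (Fin 3) (Fin 3) (ZMod 5)) := rfl
    have ey : Y = ((τ⁻¹ : (Matrix (Fin 3) (Fin 3) (ZMod 5))ˣ) : Matrix (Fin 3) (Fin 3) (ZMod 5)) *
        comp5inv * (τ : Matrix (Fin 3) (Fin 3) (ZMod 5)) := rfl
    have e1 : ((τ⁻¹ : (Matrix (Fin 3) (Fin 3) (ZMod 5))ˣ) : Matrix (Fin 3) (Fin 3) (ZMod 5)) *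
        (τ : Matrix (Fin 3) (Fin 3) (ZMod 5)) = 1 := by rw [← Units.val_mul]; simp
    rw [ex, ey]
    simp only [mul_add, add_mul, Matrix.mul_smul, Matrix.smul_mul, Matrix.mul_one, e1]
  have hdet : (a • (1 : Matrix (Fin 3) (Fin 3) (ZMod 5)) + b • X + c • Y).det = 0 := by
    apply Matrix.det_eq_zero_of_column_eq_zero 0
    intro i
    fin_cases i
    · simpa using e1
    · simp only [Matrix.add_apply, Matrix.smul_apply]
      simp [h1, h2]
    · simpa using e2
  rw [hconj, Matrix.det_units_conj'] at hdet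
  exact cubic5 a b c habc hdet


lemma det5a (τ : (Matrix (Fin 3) (Fin 3) (ZMod 5))ˣ) :
    ((τ⁻¹ * sig5 * τ : (Matrix (Fin 3) (Fin 3) (ZMod 5))ˣ) :
      Matrix (Fin 3) (Fin 3) (ZMod 5)).det = 2 := by
  rw [Units.val_mul, Units.val_mul, Matrix.det_units_conj', det5]

lemma det5b (τ : (Matrix (Fin 3) (Fin 3) (ZMod 5))ˣ) :
    ((τ⁻¹ * sig5⁻¹ * τ : (Matrix (Fin 3) (Fin 3) (ZMod 5))ˣ) :
      Matrix (Fin 3) (Fin 3) (ZMod 5)).det = 3 := by
  rw [Units.val_mul, Units.val_mul, Matrix.det_units_conj']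
  show comp5inv.det = 3
  rw [comp5inv, Matrix.det_fin_three]
  decide

lemma tr5a (τ : (Matrix (Fin 3) (Fin 3) (ZMod 5))ˣ) :
    ((τ⁻¹ * sig5 * τ : (Matrix (Fin 3) (Fin 3) (ZMod 5))ˣ) :
      Matrix (Fin 3) (Fin 3) (ZMod 5)).trace = comp5.trace := by
  rw [Units.val_mul, Units.val_mul, Matrix.trace_units_conj']
  rfl

lemma tr5b (τ : (Matrix (Fin 3) (Fin 3) (ZMod 5))ˣ) :
    ((τ⁻¹ * sig5⁻¹ * τ : (Matrix (Fin 3) (Fin 3) (ZMod 5))ˣ) :
      Matrix (Fin 3) (Fin 3) (ZMod 5)).trace = comp5inv.trace := by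
  rw [Units.val_mul, Units.val_mul, Matrix.trace_units_conj']
  rfl

lemma trace_single_mul' (M : Matrix (Fin 3) (Fin 3) (ZMod 5)) :
    (Matrix.single 0 1 1 * M).trace = M 1 0 := by
  rw [Matrix.trace_fin_three]
  simp

lemma two_factor (τ ρ : (Matrix (Fin 3) (Fin 3) (ZMod 5))ˣ)
    (h : (τ⁻¹ * sig5 * τ) * (ρ⁻¹ * sig5⁻¹ * ρ) = transv 0 1 (by decide) 1) : False := by
  set T : (Matrix (Fin 3) (Fin 3) (ZMod 5))ˣ := transv 0 1 (by decide) 1 with hT
  have h1 : T * (ρ⁻¹ * sig5 * ρ) = τ⁻¹ * sig5 * τ := by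
    rw [← h]; group
  have h2 : (ρ⁻¹ * sig5⁻¹ * ρ) = (τ⁻¹ * sig5⁻¹ * τ) * T := by
    rw [← h]; group
  have t1 := congrArg (fun g : (Matrix (Fin 3) (Fin 3) (ZMod 5))ˣ =>
    (g : Matrix (Fin 3) (Fin 3) (ZMod 5)).trace) h1
  have t2 := congrArg (fun g : (Matrix (Fin 3) (Fin 3) (ZMod 5))ˣ =>
    (g : Matrix (Fin 3) (Fin 3) (ZMod 5)).trace) h2
  beta_reduce at t1 t2
  rw [tr5a, Units.val_mul T, hT, transv_val, add_mul, one_mul, Matrix.trace_add, tr5a,
    trace_single_mul'] at t1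
  rw [tr5b, Units.val_mul _ T, hT, transv_val, mul_add, mul_one, Matrix.trace_add, tr5b,
    Matrix.trace_mul_comm, trace_single_mul'] at t2
  have z1 : ((ρ⁻¹ * sig5 * ρ : (Matrix (Fin 3) (Fin 3) (ZMod 5))ˣ) :
    Matrix (Fin 3) (Fin 3) (ZMod 5)) 1 0 = 0 := by simpa using t1
  have z2 : ((τ⁻¹ * sig5⁻¹ * τ : (Matrix (Fin 3) (Fin 3) (ZMod 5))ˣ) :
    Matrix (Fin 3) (Fin 3) (ZMod 5)) 1 0 = 0 := by simpa using t2.symm
  -- the (1,0) entry of τ⁻¹ σ τ also vanishes
  have z3 : ((τ⁻¹ * sig5 * τ : (Matrix (Fin 3) (Fin 3) (ZMod 5))ˣ) :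
    Matrix (Fin 3) (Fin 3) (ZMod 5)) 1 0 = 0 := by
    rw [← h1, Units.val_mul T, hT, transv_val, add_mul, one_mul, Matrix.add_apply, z1]
    simp
  exact no_zero τ z3 z2

lemma not_bound5 : ¬ IsRDUBoundGL 3 3 (ZMod 5) := by
  intro h
  obtain ⟨L, h1, h2, h3⟩ := h sig5 0 1 (by decide) 1 0 (by decide)
  have hone : (sig5 : Matrix (Fin 3) (Fin 3) (ZMod 5)) 1 0 = 1 := by decide
  rw [hone] at h3
  have hd := congrArg (fun g : (Matrix (Fin 3) (Fin 3) (ZMod 5))ˣ =>
    (g : Matrix (Fin 3) (Fin 3) (ZMod 5)).det) h3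
  beta_reduce at hd
  have hT : ((transv 0 1 (by decide) 1 : (Matrix (Fin 3) (Fin 3) (ZMod 5))ˣ) :
      Matrix (Fin 3) (Fin 3) (ZMod 5)).det = 1 := by
    rw [transv_val, Matrix.det_fin_three]
    simp
  rw [hT] at hd
  have hg : ∀ g ∈ L, (g : Matrix (Fin 3) (Fin 3) (ZMod 5)).det = 2 ∨
      (g : Matrix (Fin 3) (Fin 3) (ZMod 5)).det = 3 := by
    intro g hg
    obtain ⟨τ, _, h | h⟩ := h2 g hg
    · left; rw [h]; exact det5a τ
    · right; rw [h]; exact det5b τ
  rcases L with _ | ⟨a, _ | ⟨b, _ | ⟨c, _ | ⟨d, L⟩⟩⟩⟩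
  · have h4 := congrArg (fun g : (Matrix (Fin 3) (Fin 3) (ZMod 5))ˣ =>
      (g : Matrix (Fin 3) (Fin 3) (ZMod 5)) 0 1) h3
    simp [transv_val] at h4
  · simp only [List.prod_singleton] at hd
    rcases hg a (by simp) with h | h <;> rw [h] at hd <;> revert hd <;> decide
  · simp only [List.prod_cons, List.prod_nil, mul_one, Units.val_mul, Matrix.det_mul] at hd
    obtain ⟨τ, _, ha⟩ := h2 a (by simp)
    obtain ⟨ρ, _, hb⟩ := h2 b (by simp)
    simp only [List.prod_cons, List.prod_nil, mul_one] at h3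
    rcases ha with ha | ha <;> rcases hb with hb | hb
    · rw [ha, hb, det5a, det5a] at hd; revert hd; decide
    · rw [ha, hb] at h3
      exact two_factor τ ρ h3
    · rw [ha, hb] at h3
      refine two_factor (ρ * (τ⁻¹ * sig5 * τ)) τ ?_
      rw [← h3]
      group
    · rw [ha, hb, det5b, det5b] at hd; revert hd; decide
  · simp only [List.prod_cons, List.prod_nil, mul_one, Units.val_mul, Matrix.det_mul] at hd
    rcases hg a (by simp) with h | h <;> rcases hg b (by simp) with h' | h' <;>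
      rcases hg c (by simp) with h'' | h'' <;> rw [h, h', h''] at hd <;> revert hd <;> decide
  · simp only [List.length_cons] at h1
    omega

/-! ### the local ring -/

/-- the ring `F₂ ⊕ M` with `M = M_3(F₂)` as a vector space and `M² = 0`. -/
abbrev R2 : Type := TrivSqZeroExt (ZMod 2) (Matrix (Fin 3) (Fin 3) (ZMod 2))

abbrev M2 : Type := Matrix (Fin 3) (Fin 3) (ZMod 2)


/-- the generic matrix. -/
def X2 : Matrix (Fin 3) (Fin 3) R2 :=
  Matrix.of fun a b => TrivSqZeroExt.inr (Matrix.single a b (1 : ZMod 2))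

/-- matrices with entries in `M`. -/
lemma mul_eq_zero_of_fst {A B : Matrix (Fin 3) (Fin 3) R2} (hA : ∀ i j, (A i j).fst = 0)
    (hB : ∀ i j, (B i j).fst = 0) : A * B = 0 := by
  ext i j
  · rw [Matrix.mul_apply, TrivSqZeroExt.fst_sum]
    simp [hA]
  · rw [Matrix.mul_apply, TrivSqZeroExt.snd_sum]
    simp [hA, hB]

lemma X2_fst (i j : Fin 3) : (X2 i j).fst = 0 := by
  simp [X2]

lemma X2_sq : X2 * X2 = 0 := mul_eq_zero_of_fst X2_fst X2_fst

lemma X2_add : X2 + X2 = 0 := by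
  ext i j
  · simp [X2]
  · simp [X2, CharTwo.add_self_eq_zero]

/-- the matrix `σ = 1 + X`. -/
noncomputable def sig2 : (Matrix (Fin 3) (Fin 3) R2)ˣ where
  val := 1 + X2
  inv := 1 + X2
  val_inv := by
    rw [add_mul, mul_add, mul_add, X2_sq, one_mul, mul_one, one_mul, add_zero, add_assoc, X2_add,
      add_zero]
  inv_val := by
    rw [add_mul, mul_add, mul_add, X2_sq, one_mul, mul_one, one_mul, add_zero, add_assoc, X2_add,
      add_zero]

lemma sig2_inv : sig2⁻¹ = sig2 := by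
  apply Units.ext
  rfl

/-- `Y(g)`. -/
noncomputable def Y2 (g : M2ˣ) : Matrix (Fin 3) (Fin 3) R2 :=
  Matrix.of fun p q => TrivSqZeroExt.inr (Matrix.of fun a b =>
    ((g⁻¹ : M2ˣ) : M2) p a * (g : M2) b q)

lemma Y2_fst (g : M2ˣ) (i j : Fin 3) : (Y2 g i j).fst = 0 := by
  simp [Y2]

/-- reduction mod `M`. -/
noncomputable def bar (τ : (Matrix (Fin 3) (Fin 3) R2)ˣ) : M2ˣ :=
  mapGL 3 (TrivSqZeroExt.fstHom (ZMod 2) (ZMod 2) (Matrix (Fin 3) (Fin 3) (ZMod 2)) :
    R2 →+* ZMod 2) τ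

lemma bar_val (τ : (Matrix (Fin 3) (Fin 3) R2)ˣ) (i j : Fin 3) :
    (bar τ : M2) i j = ((τ : Matrix (Fin 3) (Fin 3) R2) i j).fst := rfl

lemma bar_inv_val (τ : (Matrix (Fin 3) (Fin 3) R2)ˣ) (i j : Fin 3) :
    (((bar τ)⁻¹ : M2ˣ) : M2) i j
      = (((τ⁻¹ : (Matrix (Fin 3) (Fin 3) R2)ˣ) : Matrix (Fin 3) (Fin 3) R2) i j).fst := by
  rw [bar, ← map_inv]
  rfl

lemma conj_X2 (τ : (Matrix (Fin 3) (Fin 3) R2)ˣ) :
    ((τ⁻¹ : (Matrix (Fin 3) (Fin 3) R2)ˣ) : Matrix (Fin 3) (Fin 3) R2) * X2 *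
      (τ : Matrix (Fin 3) (Fin 3) R2) = Y2 (bar τ) := by
  ext p q
  · rw [Y2_fst, Matrix.mul_apply, TrivSqZeroExt.fst_sum]
    apply Finset.sum_eq_zero
    intro b _
    rw [TrivSqZeroExt.fst_mul, Matrix.mul_apply, TrivSqZeroExt.fst_sum]
    rw [Finset.sum_eq_zero, zero_mul]
    intro a _
    rw [TrivSqZeroExt.fst_mul, X2_fst, mul_zero]
  · rename_i a b
    rw [Matrix.mul_apply, TrivSqZeroExt.snd_sum]
    simp only [Matrix.mul_apply, TrivSqZeroExt.fst_sum, TrivSqZeroExt.snd_sum,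
      TrivSqZeroExt.snd_mul, TrivSqZeroExt.fst_mul, X2_fst, mul_zero, Finset.sum_const_zero,
      zero_smul, MulOpposite.op_zero, add_zero, zero_add]
    simp only [Y2, bar_val, bar_inv_val, X2, Matrix.of_apply, TrivSqZeroExt.snd_inr]
    simp only [Matrix.sum_apply, Matrix.smul_apply, Matrix.single_apply]
    rw [Finset.sum_eq_single b]
    · rw [Finset.sum_eq_single a]
      · simp
      · intro c _ hc
        simp [hc]
      · simp
    · intro x _ hx
      simp [hx]
    · simp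


lemma conj_sig2 (τ : (Matrix (Fin 3) (Fin 3) R2)ˣ) :
    ((τ⁻¹ * sig2 * τ : (Matrix (Fin 3) (Fin 3) R2)ˣ) : Matrix (Fin 3) (Fin 3) R2)
      = 1 + Y2 (bar τ) := by
  rw [← conj_X2, Units.val_mul, Units.val_mul]
  show _ * (1 + X2) * _ = _
  rw [mul_add, add_mul, mul_one, ← Units.val_mul, inv_mul_cancel, Units.val_one]

lemma prod_form (L : List (Matrix (Fin 3) (Fin 3) R2)ˣ)
    (hL : ∀ g ∈ L, ∃ h : M2ˣ, (g : Matrix (Fin 3) (Fin 3) R2) = 1 + Y2 h) :
    ∃ L' : List M2ˣ, L'.length = L.length ∧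
      ((L.prod : (Matrix (Fin 3) (Fin 3) R2)ˣ) : Matrix (Fin 3) (Fin 3) R2)
        = 1 + (L'.map Y2).sum := by
  induction L with
  | nil => exact ⟨[], rfl, by simp⟩
  | cons g L ih =>
    obtain ⟨L', h1, h2⟩ := ih (fun g hg => hL g (List.mem_cons_of_mem _ hg))
    obtain ⟨h, hh⟩ := hL g (by simp)
    refine ⟨h :: L', by simp [h1], ?_⟩
    rw [List.prod_cons, Units.val_mul, h2, hh, List.map_cons, List.sum_cons]
    have hz : Y2 h * (L'.map Y2).sum = 0 := by
      apply mul_eq_zero_of_fst (Y2_fst h)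
      intro i j
      clear h1 h2
      induction L' with
      | nil => simp
      | cons a L' ih' =>
        rw [List.map_cons, List.sum_cons, Matrix.add_apply, TrivSqZeroExt.fst_add, Y2_fst, ih',
          add_zero]
    rw [add_mul, mul_add, mul_add, hz, one_mul, mul_one, one_mul]
    abel

lemma sum_Y2_snd (L' : List M2ˣ) (p q a b : Fin 3) :
    TrivSqZeroExt.snd ((L'.map Y2).sum p q) a b
      = (L'.map (fun g : M2ˣ => ((g⁻¹ : M2ˣ) : M2) p a * (g : M2) b q)).sum := by
  induction L' with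
  | nil => simp
  | cons g L' ih =>
    rw [List.map_cons, List.sum_cons, List.map_cons, List.sum_cons, Matrix.add_apply,
      TrivSqZeroExt.snd_add, Matrix.add_apply, ih]
    rfl

lemma bound_gives {m : ℕ} (h : IsRDUBoundGL 3 m R2) :
    ∃ L' : List M2ˣ, L'.length ≤ m ∧ ∀ p q a b : Fin 3,
      (L'.map (fun g : M2ˣ => ((g⁻¹ : M2ˣ) : M2) p a * (g : M2) b q)).sum
        = (Matrix.single 0 0 1 : M2) p a * (Matrix.single 1 1 1 : M2) b q := by
  obtain ⟨L, h1, h2, h3⟩ := h sig2 0 1 (by decide) 0 1 (by decide)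
  obtain ⟨L', h4, h5⟩ := prod_form L (by
    intro g hg
    obtain ⟨τ, _, h | h⟩ := h2 g hg
    · exact ⟨bar τ, by rw [h, conj_sig2]⟩
    · exact ⟨bar τ, by rw [h, sig2_inv, conj_sig2]⟩)
  refine ⟨L', by omega, ?_⟩
  intro p q a b
  rw [← sum_Y2_snd]
  rw [h3, transv_val] at h5
  have h6 : (L'.map Y2).sum = Matrix.single 0 1 ((sig2 : Matrix (Fin 3) (Fin 3) R2) 0 1) :=
    (add_left_cancel h5).symm
  rw [h6]
  have h7 : (sig2 : Matrix (Fin 3) (Fin 3) R2) 0 1 = TrivSqZeroExt.inr (Matrix.single 0 1 1) := by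
    show (1 + X2 : Matrix (Fin 3) (Fin 3) R2) 0 1 = _
    simp [X2]
  rw [h7]
  rw [Matrix.single_apply]
  by_cases hpq : 0 = p ∧ 1 = q
  · obtain ⟨rfl, rfl⟩ := hpq
    simp only [and_self, if_true, TrivSqZeroExt.snd_inr, Matrix.single_apply, true_and, and_true]
    by_cases ha : 0 = a <;> by_cases hb : 1 = b <;> simp [ha, hb]
  · rw [if_neg hpq]
    simp only [TrivSqZeroExt.snd_zero, Matrix.zero_apply, Matrix.single_apply]
    by_cases ha : 0 = p ∧ 0 = a <;> by_cases hb : 1 = b ∧ 1 = q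
    · exact absurd ⟨ha.1, hb.2⟩ hpq
    · simp [ha, hb]
    · simp [ha, hb]
    · simp [ha, hb]

lemma m2_add_self (x : M2) : x + x = 0 := CharTwo.add_self_eq_zero x

lemma zmod2_cases (x : ZMod 2) : x = 0 ∨ x = 1 := by
  revert x; decide

lemma add_cancel_left2 {x y z : M2} (h : x = y + z) : x + y = z := by
  rw [h, add_comm y z, add_assoc, m2_add_self, add_zero]

/-- the final contradiction -/
lemma six (A A' B C C' : M2ˣ) (Q Z : M2) (j l : Fin 3)
    (hA' : (A' : M2) = (A : M2) + (single j l 1 : M2)) (hC : (C : M2) = (A : M2) + (B : M2))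
    (hC' : (C' : M2) = (C : M2) + (single j l 1 : M2))
    (hAe : (A : M2) ≠ (single j l 1 : M2)) (hA0 : (A : M2) ≠ 0) (hAB : (A : M2) ≠ B)
    (hABe : (A : M2) ≠ (B : M2) + (single j l 1 : M2))
    (hT : ∀ b c, (A : M2) b c • (((A⁻¹ : M2ˣ) : M2) + ((A'⁻¹ : M2ˣ) : M2) + ((C⁻¹ : M2ˣ) : M2) +
      ((C'⁻¹ : M2ˣ) : M2)) + (B : M2) b c • Q + (single j l 1 : M2) b c • Z = 0) : False := by
  set e : M2 := single j l 1 with he
  set P : M2 := ((A⁻¹ : M2ˣ) : M2) + ((A'⁻¹ : M2ˣ) : M2) + ((C⁻¹ : M2ˣ) : M2) +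
      ((C'⁻¹ : M2ˣ) : M2) with hP
  have hP0 : P = 0 := by
    by_contra hne
    obtain ⟨x, y, hxy⟩ : ∃ x y, P x y ≠ 0 := by
      by_contra hcon
      push Not at hcon
      exact hne (by ext x y; exact hcon x y)
    have h1 : P x y = 1 := by
      rcases zmod2_cases (P x y) with h | h
      · exact absurd h hxy
      · exact h
    have h2 : (A : M2) + (Q x y) • (B : M2) + (Z x y) • e = 0 := by
      ext b c
      have := congrFun (congrFun (hT b c) x) y
      simp only [Matrix.add_apply, Matrix.smul_apply, h1, smul_eq_mul, mul_one,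
        Matrix.zero_apply] at this ⊢
      rw [← this]
      ring
    rcases zmod2_cases (Q x y) with hq | hq <;> rcases zmod2_cases (Z x y) with hz | hz <;>
      rw [hq, hz] at h2
    · simp only [zero_smul, add_zero] at h2
      exact hA0 h2
    · simp only [zero_smul, one_smul, add_zero] at h2
      exact hAe (CharTwo.add_eq_zero.mp h2)
    · simp only [zero_smul, one_smul, add_zero] at h2
      exact hAB (CharTwo.add_eq_zero.mp h2)
    · simp only [one_smul, add_assoc] at h2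
      exact hABe (CharTwo.add_eq_zero.mp h2)
  have key : ∀ (X X' : M2ˣ), (X' : M2) = X + e →
      ((X⁻¹ : M2ˣ) : M2) + ((X'⁻¹ : M2ˣ) : M2) = ((X⁻¹ : M2ˣ) : M2) * e * ((X'⁻¹ : M2ˣ) : M2) := by
    intro X X' h
    have h1 : e = (X' : M2) + X := by
      rw [h, add_comm (X : M2) e, add_assoc, m2_add_self, add_zero]
    rw [h1, mul_add, add_mul, ← Units.val_mul, ← Units.val_mul, ← Units.val_mul, ← Units.val_mul]
    simp only [mul_assoc, mul_inv_cancel, mul_one, inv_mul_cancel, one_mul]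
  have h3 : ((A⁻¹ : M2ˣ) : M2) * e * ((A'⁻¹ : M2ˣ) : M2)
      = ((C⁻¹ : M2ˣ) : M2) * e * ((C'⁻¹ : M2ˣ) : M2) := by
    rw [← key A A' hA', ← key C C' hC', ← CharTwo.add_eq_zero, ← hP0, hP]
    abel
  have h4 : ∀ p q, ((A⁻¹ : M2ˣ) : M2) p j * ((A'⁻¹ : M2ˣ) : M2) l q
      = ((C⁻¹ : M2ˣ) : M2) p j * ((C'⁻¹ : M2ˣ) : M2) l q := by
    intro p q
    have := congrFun (congrFun h3 p) q
    have gen : ∀ (X Y : M2), (X * e * Y) p q = X p j * Y l q := by
      intro X Y
      rw [Matrix.mul_apply, Finset.sum_eq_single l]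
      · rw [he, mul_single_apply_same, mul_one]
      · intro b _ hb
        rw [he, mul_single_apply_of_ne _ _ _ _ _ hb, zero_mul]
      · simp
    rwa [gen, gen] at this
  -- the l-th row of A'⁻¹ is non-zero
  obtain ⟨q, hq⟩ : ∃ q, ((A'⁻¹ : M2ˣ) : M2) l q = 1 := by
    by_contra hcon
    push Not at hcon
    have h0 : ∀ q, ((A'⁻¹ : M2ˣ) : M2) l q = 0 := by
      intro q
      rcases zmod2_cases (((A'⁻¹ : M2ˣ) : M2) l q) with h | h
      · exact h
      · exact absurd h (hcon q)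
    have h5 : (((A'⁻¹ : M2ˣ) : M2) * (A' : M2)) l l = 1 := by
      rw [← Units.val_mul, inv_mul_cancel, Units.val_one, Matrix.one_apply_eq]
    rw [Matrix.mul_apply, Finset.sum_eq_zero (fun x _ => by rw [h0, zero_mul])] at h5
    exact absurd h5 (by decide)
  have h6 : ∀ p, ((A⁻¹ : M2ˣ) : M2) p j = ((C⁻¹ : M2ˣ) : M2) p j * ((C'⁻¹ : M2ˣ) : M2) l q := by
    intro p
    rw [← h4, hq, mul_one]
  have hAA : ∀ p, (((A : M2) * ((A⁻¹ : M2ˣ) : M2)) p j) = (1 : M2) p j := by
    intro p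
    rw [← Units.val_mul, mul_inv_cancel, Units.val_one]
  have hCC : ∀ p, (((C : M2) * ((C⁻¹ : M2ˣ) : M2)) p j) = (1 : M2) p j := by
    intro p
    rw [← Units.val_mul, mul_inv_cancel, Units.val_one]
  have h7 : ((C'⁻¹ : M2ˣ) : M2) l q = 1 := by
    rcases zmod2_cases (((C'⁻¹ : M2ˣ) : M2) l q) with h | h
    · exfalso
      have h8 := hAA j
      rw [Matrix.mul_apply, Finset.sum_eq_zero (fun x _ => by rw [h6, h, mul_zero, mul_zero]),
        Matrix.one_apply_eq] at h8
      exact absurd h8 (by decide)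
    · exact h
  have h8 : ∀ p, ((A⁻¹ : M2ˣ) : M2) p j = ((C⁻¹ : M2ˣ) : M2) p j := by
    intro p
    rw [h6, h7, mul_one]
  -- B z = 0
  have h9 : (B : M2) *ᵥ (fun p => ((A⁻¹ : M2ˣ) : M2) p j) = 0 := by
    have hB : (B : M2) = (C : M2) + A := by
      rw [hC, add_comm (A : M2), add_assoc, m2_add_self, add_zero]
    rw [hB, Matrix.add_mulVec]
    ext p
    have e1 : ((A : M2) *ᵥ (fun p => ((A⁻¹ : M2ˣ) : M2) p j)) p = (1 : M2) p j := hAA p
    have e2 : ((C : M2) *ᵥ (fun p => ((A⁻¹ : M2ˣ) : M2) p j)) p = (1 : M2) p j := by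
      rw [← hCC p]
      simp only [Matrix.mulVec, dotProduct, h8, Matrix.mul_apply]
    rw [Pi.add_apply, e1, e2]
    exact CharTwo.add_self_eq_zero _
  have h10 : (fun p => ((A⁻¹ : M2ˣ) : M2) p j) = 0 := by
    have : ((B⁻¹ : M2ˣ) : M2) *ᵥ ((B : M2) *ᵥ (fun p => ((A⁻¹ : M2ˣ) : M2) p j)) = 0 := by
      rw [h9, Matrix.mulVec_zero]
    rwa [Matrix.mulVec_mulVec, ← Units.val_mul, inv_mul_cancel, Units.val_one,
      Matrix.one_mulVec] at this
  have h11 := hAA j
  rw [Matrix.mul_apply, Finset.sum_eq_zero (fun x _ => by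
    rw [show ((A⁻¹ : M2ˣ) : M2) x j = 0 from congrFun h10 x, mul_zero]),
        Matrix.one_apply_eq] at h11
  exact absurd h11 (by decide)


lemma unit_ne_zero' (g : M2ˣ) : (g : M2) ≠ 0 := by
  intro h
  have h5 : (((g⁻¹ : M2ˣ) : M2) * (g : M2)) 0 0 = 1 := by
    rw [← Units.val_mul, inv_mul_cancel, Units.val_one, Matrix.one_apply_eq]
  rw [h, Matrix.mul_zero] at h5
  exact absurd h5 (by decide)

lemma unit_ne_single (g : M2ˣ) (j l : Fin 3) : (g : M2) ≠ (single j l 1 : M2) := by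
  intro h
  obtain ⟨i, hi⟩ : ∃ i : Fin 3, i ≠ j := by
    fin_cases j
    · exact ⟨1, by decide⟩
    · exact ⟨0, by decide⟩
    · exact ⟨0, by decide⟩
  have h5 : ((g : M2) * ((g⁻¹ : M2ˣ) : M2)) i i = 1 := by
    rw [← Units.val_mul, mul_inv_cancel, Units.val_one, Matrix.one_apply_eq]
  rw [h, single_mul_apply_of_ne _ _ _ _ _ hi] at h5
  exact absurd h5 (by decide)

lemma single_ne_zero' (j l : Fin 3) : (single j l 1 : M2) ≠ 0 := by
  intro h
  have := congrFun (congrFun h j) l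
  simp at this

lemma core_sub (S : Finset M2ˣ) (q : ℕ) (hcard : S.card = 2 * q) (hq : q ≤ 3) (j l : Fin 3)
    (W : Submodule (ZMod 2) M2) (hW : Module.finrank (ZMod 2) W ≤ q)
    (he : (single j l 1 : M2) ∈ W) (hS : ∀ g ∈ S, (g : M2) ∈ W) (E : M2)
    (hT : ∀ b c, ∑ g ∈ S, (g : M2) b c • ((g⁻¹ : M2ˣ) : M2) = (single j l 1 : M2) b c • E) :
    False := by
  classical
  set e : M2 := single j l 1 with hedef
  set U : Finset M2 := insert 0 (insert e (S.image (fun g : M2ˣ => (g : M2)))) with hU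
  have hUcard : U.card = 2 * q + 2 := by
    rw [hU, Finset.card_insert_of_notMem, Finset.card_insert_of_notMem, Finset.card_image_of_injective,
      hcard]
    · exact Units.val_injective
    · intro h
      obtain ⟨g, _, hg⟩ := Finset.mem_image.mp h
      exact unit_ne_single g j l hg
    · intro h
      rcases Finset.mem_insert.mp h with h | h
      · exact single_ne_zero' j l h.symm
      · obtain ⟨g, _, hg⟩ := Finset.mem_image.mp h
        exact unit_ne_zero' g hg
  have hUW : ∀ x ∈ U, x ∈ W := by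
    intro x hx
    rw [hU, Finset.mem_insert, Finset.mem_insert, Finset.mem_image] at hx
    rcases hx with rfl | rfl | ⟨g, hg, rfl⟩
    · exact W.zero_mem
    · exact he
    · exact hS g hg
  have hWcard : Nat.card W ≤ 2 ^ q := by
    have : Nat.card W = Nat.card (ZMod 2) ^ Module.finrank (ZMod 2) W :=
      Module.natCard_eq_pow_finrank
    rw [this, Nat.card_zmod]
    exact Nat.pow_le_pow_right (by norm_num) hW
  set WF : Finset M2 := (Finset.univ : Finset M2).filter (· ∈ W) with hWF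
  have hWFcard : WF.card = Nat.card W := by
    rw [hWF, ← Fintype.card_subtype, Nat.card_eq_fintype_card]
  have hsub : U ⊆ WF := by
    intro x hx
    rw [hWF, Finset.mem_filter]
    exact ⟨Finset.mem_univ _, hUW x hx⟩
  have hle := Finset.card_le_card hsub
  have hq3 : q = 3 := by
    interval_cases q
    · rw [hUcard, hWFcard] at hle; omega
    · rw [hUcard, hWFcard] at hle; omega
    · rw [hUcard, hWFcard] at hle; omega
    · rfl
  subst hq3
  have hUeq : U = WF := Finset.eq_of_subset_of_card_le hsub (by rw [hWFcard, hUcard]; simpa using hWcard)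
  have hcl : ∀ x ∈ U, ∀ y ∈ U, x + y ∈ U := by
    intro x hx y hy
    have := W.add_mem (hUW x hx) (hUW y hy)
    rw [hUeq, hWF, Finset.mem_filter]
    exact ⟨Finset.mem_univ _, this⟩
  have heU : e ∈ U := by rw [hU]; simp
  have hgU : ∀ g ∈ S, (g : M2) ∈ U := by
    intro g hg
    rw [hU]
    exact Finset.mem_insert_of_mem (Finset.mem_insert_of_mem (Finset.mem_image_of_mem _ hg))
  -- every non-zero non-e sum comes from S
  have hex : ∀ x ∈ U, x ≠ 0 → x ≠ e → ∃ g ∈ S, (g : M2) = x := by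
    intro x hx h0 he
    rw [hU, Finset.mem_insert, Finset.mem_insert, Finset.mem_image] at hx
    rcases hx with h | h | h
    · exact absurd h h0
    · exact absurd h he
    · exact h
  have adde : ∀ g ∈ S, ∃ g' ∈ S, (g' : M2) = (g : M2) + e := by
    intro g hg
    apply hex _ (hcl _ (hgU g hg) _ heU)
    · intro h
      exact unit_ne_single g j l (CharTwo.add_eq_zero.mp h)
    · intro h
      exact unit_ne_zero' g (by rwa [add_eq_right] at h)
  obtain ⟨A, hA⟩ : ∃ A, A ∈ S := by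
    apply Finset.Nonempty.exists_mem
    rw [← Finset.card_pos, hcard]
    norm_num
  obtain ⟨A', hA's, hA'⟩ := adde A hA
  obtain ⟨B, hB, hBA⟩ : ∃ B ∈ S, B ∉ ({A, A'} : Finset M2ˣ) := by
    apply Finset.exists_mem_notMem_of_card_lt_card
    calc ({A, A'} : Finset M2ˣ).card ≤ 2 := Finset.card_le_two
      _ < S.card := by rw [hcard]; norm_num
  simp only [Finset.mem_insert, Finset.mem_singleton, not_or] at hBA
  obtain ⟨B', hB's, hB'⟩ := adde B hB
  have hABne : (A : M2) ≠ B := fun h => hBA.1 (Units.ext h).symm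
  have hA'Bne : (A' : M2) ≠ B := fun h => hBA.2 (Units.ext h).symm
  obtain ⟨C, hC, hCv⟩ : ∃ g ∈ S, (g : M2) = (A : M2) + (B : M2) := by
    apply hex _ (hcl _ (hgU A hA) _ (hgU B hB))
    · intro h
      exact hABne (CharTwo.add_eq_zero.mp h)
    · intro h
      apply hA'Bne
      rw [hA', ← h, ← add_assoc, m2_add_self, zero_add]
  obtain ⟨C', hC's, hC'⟩ := adde C hC
  -- the six elements are distinct
  have he0 : e ≠ 0 := single_ne_zero' j l
  have hAe : (A : M2) ≠ e := unit_ne_single A j l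
  have hBe : (B : M2) ≠ e := unit_ne_single B j l
  have hA0 : (A : M2) ≠ 0 := unit_ne_zero' A
  have hB0 : (B : M2) ≠ 0 := unit_ne_zero' B
  have ev : ∀ {g h : M2ˣ}, g = h → (g : M2) = h := fun h => congrArg _ h
  have hABe : (A : M2) ≠ (B : M2) + e := by
    intro h
    apply hA'Bne
    rw [hA', h, add_assoc, m2_add_self, add_zero]
  have n1 : A ≠ A' := fun h => he0 (by have := ev h; rwa [hA', left_eq_add] at this)
  have n2 : A ≠ B := fun h => hABne (ev h)
  have n3 : A ≠ B' := fun h => hABe (by have := ev h; rwa [hB'] at this)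
  have n4 : A ≠ C := fun h => hB0 (by have := ev h; rwa [hCv, left_eq_add] at this)
  have n5 : A ≠ C' := fun h => hBe (by
    have := ev h; rw [hC', hCv, add_assoc, left_eq_add] at this; exact CharTwo.add_eq_zero.mp this)
  have n6 : A' ≠ B := fun h => hA'Bne (ev h)
  have n7 : A' ≠ B' := fun h => hABne (by
    have := ev h; rw [hA', hB'] at this; exact add_right_cancel this)
  have n8 : A' ≠ C := fun h => hBe (by
    have := ev h; rw [hA', hCv] at this; exact (add_left_cancel this).symm)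
  have n9 : A' ≠ C' := fun h => hB0 (by
    have := ev h; rw [hA', hC', hCv] at this; have := add_right_cancel this
    rwa [left_eq_add] at this)
  have n10 : B ≠ B' := fun h => he0 (by have := ev h; rwa [hB', left_eq_add] at this)
  have n11 : B ≠ C := fun h => hA0 (by have := ev h; rwa [hCv, right_eq_add] at this)
  have n12 : B ≠ C' := fun h => hAe (by
    have := ev h
    rw [hC', hCv, add_comm (A : M2), add_assoc, left_eq_add] at this
    exact CharTwo.add_eq_zero.mp this)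
  have n13 : B' ≠ C := fun h => hAe (by
    have := ev h; rw [hB', hCv, add_comm (A : M2)] at this; exact (add_left_cancel this).symm)
  have n14 : B' ≠ C' := fun h => hA0 (by
    have := ev h; rw [hB', hC', hCv] at this; have := add_right_cancel this
    rwa [right_eq_add] at this)
  have n15 : C ≠ C' := fun h => he0 (by have := ev h; rwa [hC', left_eq_add] at this)
  have hlist : S = {A, A', B, B', C, C'} := by
    symm
    apply Finset.eq_of_subset_of_card_le
    · intro x hx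
      simp only [Finset.mem_insert, Finset.mem_singleton] at hx
      rcases hx with rfl | rfl | rfl | rfl | rfl | rfl <;> assumption
    · rw [hcard, Finset.card_insert_of_notMem, Finset.card_insert_of_notMem,
        Finset.card_insert_of_notMem, Finset.card_insert_of_notMem, Finset.card_insert_of_notMem,
        Finset.card_singleton]
      · simpa using n15
      · simp [n13, n14]
      · simp [n10, n11, n12]
      · simp [n6, n7, n8, n9]
      · simp [n1, n2, n3, n4, n5]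
  have hsum : ∀ F : M2ˣ → M2, ∑ g ∈ S, F g = F A + (F A' + (F B + (F B' + (F C + F C')))) := by
    intro F
    rw [hlist, Finset.sum_insert, Finset.sum_insert,
        Finset.sum_insert, Finset.sum_insert, Finset.sum_insert,
        Finset.sum_singleton]
    · simpa using n15
    · simp [n13, n14]
    · simp [n10, n11, n12]
    · simp [n6, n7, n8, n9]
    · simp [n1, n2, n3, n4, n5]
  refine six A A' B C C' (((B⁻¹ : M2ˣ) : M2) + ((B'⁻¹ : M2ˣ) : M2) + ((C⁻¹ : M2ˣ) : M2) +
      ((C'⁻¹ : M2ˣ) : M2)) (((A'⁻¹ : M2ˣ) : M2) + ((B'⁻¹ : M2ˣ) : M2) + ((C'⁻¹ : M2ˣ) : M2) + E)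
      j l hA' hCv hC' hAe hA0 hABne hABe ?_
  intro b c
  have h1 := hT b c
  rw [hsum, ← CharTwo.add_eq_zero] at h1
  rw [← h1, hC', hCv, hA', hB']
  simp only [Matrix.add_apply, add_smul, smul_add]
  abel


lemma sum_smul_of_entries (S : Finset M2ˣ) (f : M2ˣ → ZMod 2) (F : M2ˣ → M2) (G : M2)
    (h : ∀ p a, ∑ g ∈ S, f g * F g p a = G p a) : ∑ g ∈ S, f g • F g = G := by
  ext p a
  rw [Matrix.sum_apply, ← h]
  rfl

lemma core_finset (S : Finset M2ˣ) (hS7 : S.card ≤ 7) (hT : ∀ p q a b : Fin 3,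
      ∑ g ∈ S, ((g⁻¹ : M2ˣ) : M2) p a * (g : M2) b q
        = (Matrix.single 0 0 1 : M2) p a * (Matrix.single 1 1 1 : M2) b q) : False := by
  classical
  -- parity
  have hpar : Even S.card := by
    have h1 : ∑ a : Fin 3, ∑ g ∈ S, ((g⁻¹ : M2ˣ) : M2) 0 a * (g : M2) a 0 = 0 := by
      rw [Finset.sum_congr rfl (fun a _ => hT 0 0 a a)]
      decide
    rw [Finset.sum_comm] at h1
    have h2 : ∀ g ∈ S, ∑ a : Fin 3, ((g⁻¹ : M2ˣ) : M2) 0 a * (g : M2) a 0 = 1 := by
      intro g _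
      rw [← Matrix.mul_apply, ← Units.val_mul, inv_mul_cancel, Units.val_one]
      rfl
    rw [Finset.sum_congr rfl h2, Finset.sum_const, nsmul_eq_mul, mul_one] at h1
    rwa [ZMod.natCast_eq_zero_iff_even] at h1
  obtain ⟨q, hq⟩ := hpar
  have hq2 : S.card = 2 * q := by omega
  -- rank bound
  let a : Option S → Fin 3 × Fin 3 → ZMod 2 := fun t pa => match t with
    | none => (Matrix.single 0 0 1 : M2) pa.1 pa.2
    | some g => ((g.1⁻¹ : M2ˣ) : M2) pa.1 pa.2
  let b : Option S → Fin 3 × Fin 3 → ZMod 2 := fun t bq => match t with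
    | none => (Matrix.single 1 1 1 : M2) bq.1 bq.2
    | some g => (g.1 : M2) bq.1 bq.2
  have hprod : (Matrix.of a)ᵀ * (Matrix.of b) = 0 := by
    ext x y
    rw [Matrix.mul_apply]
    simp only [Matrix.transpose_apply, Matrix.of_apply]
    rw [Fintype.sum_option]
    have h1 := hT x.1 y.2 x.2 y.1
    have h2 : ∑ i : S, a (some i) x * b (some i) y
        = ∑ g ∈ S, ((g⁻¹ : M2ˣ) : M2) x.1 x.2 * (g : M2) y.1 y.2 :=
      Finset.sum_coe_sort S (fun g => ((g⁻¹ : M2ˣ) : M2) x.1 x.2 * (g : M2) y.1 y.2)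
    rw [h2, h1]
    exact CharTwo.add_self_eq_zero _
  have hrank := Matrix.rank_add_rank_le_card_of_mul_eq_zero hprod
  rw [Fintype.card_option, Fintype.card_coe, Matrix.rank_transpose] at hrank
  rw [Matrix.rank_eq_finrank_span_row, Matrix.rank_eq_finrank_span_row] at hrank
  let φ : (Fin 3 × Fin 3 → ZMod 2) ≃ₗ[ZMod 2] M2 := LinearEquiv.curry (ZMod 2) (ZMod 2) (Fin 3) (Fin 3)
  have hφ : ∀ (v : Fin 3 × Fin 3 → ZMod 2) i j, φ v i j = v (i, j) := fun v i j => rfl
  have hdich : Module.finrank (ZMod 2) (Submodule.span (ZMod 2) (Set.range (Matrix.of b).row)) ≤ q ∨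
      Module.finrank (ZMod 2) (Submodule.span (ZMod 2) (Set.range (Matrix.of a).row)) ≤ q := by
    omega
  rcases hdich with hb | ha
  · refine core_sub S q hq2 (by omega) 1 1
      ((Submodule.span (ZMod 2) (Set.range (Matrix.of b).row)).map (φ : _ →ₗ[ZMod 2] M2)) ?_ ?_ ?_
      (Matrix.single 0 0 1) ?_
    · rw [LinearEquiv.finrank_map_eq]
      exact hb
    · refine ⟨b none, Submodule.subset_span ⟨none, rfl⟩, ?_⟩
      rfl
    · intro g hg
      exact ⟨b (some ⟨g, hg⟩), Submodule.subset_span ⟨some ⟨g, hg⟩, rfl⟩, rfl⟩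
    · intro i j
      apply sum_smul_of_entries
      intro p c
      rw [Finset.sum_congr rfl (fun g _ => mul_comm _ _), hT]
      exact mul_comm _ _
  · refine core_sub (S.image (fun g => g⁻¹)) q ?_ (by omega) 0 0
      ((Submodule.span (ZMod 2) (Set.range (Matrix.of a).row)).map (φ : _ →ₗ[ZMod 2] M2)) ?_ ?_ ?_
      (Matrix.single 1 1 1) ?_
    · rw [Finset.card_image_of_injective _ inv_injective, hq2]
    · rw [LinearEquiv.finrank_map_eq]
      exact ha
    · refine ⟨a none, Submodule.subset_span ⟨none, rfl⟩, ?_⟩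
      rfl
    · intro g hg
      obtain ⟨g', hg', rfl⟩ := Finset.mem_image.mp hg
      exact ⟨a (some ⟨g', hg'⟩), Submodule.subset_span ⟨some ⟨g', hg'⟩, rfl⟩, rfl⟩
    · intro i j
      rw [Finset.sum_image (fun x _ y _ h => inv_injective h)]
      apply sum_smul_of_entries
      intro p c
      simp only [inv_inv]
      rw [hT]
      rfl

lemma nsmul_two_mul (k : ℕ) (z : ZMod 2) : (2 * k) • z = 0 := by
  rw [mul_smul, two_nsmul]
  exact CharTwo.add_self_eq_zero _

lemma core_list (L : List M2ˣ) (hL : L.length ≤ 7) (hT : ∀ p q a b : Fin 3,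
      (L.map (fun g : M2ˣ => ((g⁻¹ : M2ˣ) : M2) p a * (g : M2) b q)).sum
        = (Matrix.single 0 0 1 : M2) p a * (Matrix.single 1 1 1 : M2) b q) : False := by
  classical
  refine core_finset (L.toFinset.filter (fun g => Odd (L.count g))) ?_ ?_
  · calc (L.toFinset.filter (fun g => Odd (L.count g))).card ≤ L.toFinset.card :=
        Finset.card_filter_le _ _
      _ ≤ L.length := L.toFinset_card_le
      _ ≤ 7 := hL
  · intro p q a b
    rw [← hT p q a b, Finset.sum_list_map_count, Finset.sum_filter]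
    apply Finset.sum_congr rfl
    intro g _
    split_ifs with h
    · obtain ⟨k, hk⟩ := h
      rw [hk, add_smul, nsmul_two_mul, zero_add, one_smul]
    · rw [Nat.not_odd_iff_even] at h
      obtain ⟨k, hk⟩ := h
      rw [hk, ← two_mul, nsmul_two_mul]


lemma StableRankOne.of_equiv {R : Type u} {S : Type v} [Ring R] [Ring S] (e : R ≃+* S)
    (h : StableRankOne R) : StableRankOne S := by
  intro a b ⟨x, y, hxy⟩
  obtain ⟨c, hc⟩ := h (e.symm a) (e.symm b) ⟨e.symm x, e.symm y, by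
    rw [← map_mul, ← map_mul, ← map_add, hxy, map_one]⟩
  refine ⟨e c, ?_⟩
  have := hc.map e
  simpa using this

lemma stableRankOne_R2 : StableRankOne R2 := by
  intro a b ⟨x, y, hxy⟩
  have h := congrArg TrivSqZeroExt.fst hxy
  simp only [TrivSqZeroExt.fst_add, TrivSqZeroExt.fst_mul, TrivSqZeroExt.fst_one] at h
  rcases zmod2_cases a.fst with ha | ha
  · refine ⟨1, ?_⟩
    rw [TrivSqZeroExt.isUnit_iff_isUnit_fst, one_mul, TrivSqZeroExt.fst_add, ha, zero_add]
    rcases zmod2_cases b.fst with hb | hb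
    · rw [ha, hb] at h
      simp at h
    · rw [hb]; exact isUnit_one
  · refine ⟨0, ?_⟩
    rw [TrivSqZeroExt.isUnit_iff_isUnit_fst, zero_mul, add_zero, ha]
    exact isUnit_one

lemma not_bound_R2 : ¬ IsRDUBoundGL 3 7 R2 := by
  intro h
  obtain ⟨L, hL, hT⟩ := bound_gives h
  exact core_list L hL hT

lemma IsRDUBoundGL.mono {R : Type u} [Ring R] {n m m' : ℕ} (h : IsRDUBoundGL n m R)
    (hm : m ≤ m') : IsRDUBoundGL n m' R := by
  intro σ k l hkl i j hij
  obtain ⟨L, h1, h2, h3⟩ := h σ k l hkl i j hij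
  exact ⟨L, h1.trans hm, h2, h3⟩

end Pool.Agent.Helper28.RDU
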